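import Pool.Agent.H.MP_38ccf3_nt.KL

set_option autoImplicit false

namespace Pool.Agent.H.MP_38ccf3_nt

open Finset

lemma norm_sum_ee_le (s : Finset ℕ) (f : ℕ → ℝ) : ‖∑ i ∈ s, ee (f i)‖ ≤ s.card := by
  refine (norm_sum_le _ _).trans ?_
  simp [norm_ee]

/-- unified bound for the average of `ee (θ R / p)` -/
theorem unified_bound (θ : ℝ) (hθ : 0 < θ) (R P H : ℕ) (hR : 1 ≤ R) (hRP : R ≤ P)
    (hPH : P + H ≤ 2 * R) :
    ‖∑ i ∈ range H, ee (θ * R / ((P : ℝ) + i))‖
      ≤ 16 * R / θ + 118 * (Real.sqrt θ / R) * H + 30 * Real.sqrt R := by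
  have hR' : (1:ℝ) ≤ R := by exact_mod_cast hR
  have hRP' : (R:ℝ) ≤ P := by exact_mod_cast hRP
  have hPH' : (P:ℝ) + H ≤ 2 * R := by exact_mod_cast hPH
  have hH0 : (0:ℝ) ≤ H := by positivity
  have hP2 : (P:ℝ) ≤ 2 * R := by linarith
  have hT : 0 < θ * R := by positivity
  have hP0 : 0 < P := by omega
  have hHP : H ≤ P := by omega
  have t1 : 0 ≤ 16 * R / θ := by positivity
  have t2 : 0 ≤ 118 * (Real.sqrt θ / R) * H := by positivity
  have t3 : 0 ≤ 30 * Real.sqrt R := by positivity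
  rcases le_total (θ * R) ((P:ℝ) ^ 2 / 2) with h | h
  · have := sum_inv_small (θ * R) hT P H hP0 hHP h
    refine this.trans ?_
    have h5 : 4 * (P:ℝ) ^ 2 / (θ * R) ≤ 16 * R / θ := by
      rw [div_le_div_iff₀ (by positivity) (by positivity)]
      have : (P:ℝ) ^ 2 ≤ 4 * R ^ 2 := by nlinarith
      calc 4 * (P:ℝ) ^ 2 * θ ≤ 4 * (4 * R ^ 2) * θ := by gcongr
        _ = 16 * R * (θ * R) := by ring
    linarith
  · have hsq : Real.sqrt θ / R = Real.sqrt (θ * R / (R:ℝ) ^ 3) := by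
      have e : θ * R / (R:ℝ) ^ 3 = θ / R ^ 2 := by field_simp
      rw [e, Real.sqrt_div hθ.le, Real.sqrt_sq (by positivity)]
    have hcmp : Real.sqrt (θ * R / (P:ℝ) ^ 3) ≤ Real.sqrt θ / R := by
      rw [hsq]
      apply Real.sqrt_le_sqrt
      apply div_le_div_of_nonneg_left hT.le (by positivity)
      gcongr
    rcases le_total (θ * R) ((P:ℝ) ^ 3 / 4) with h' | h'
    · have key := sum_inv_large (θ * R) hT P H hP0 hHP h'
      refine key.trans ?_
      set u := Real.sqrt (θ * R / (P:ℝ) ^ 3) with hu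
      have hTP : 0 < θ * R / (P:ℝ) ^ 3 := by positivity
      have hu0 : 0 < u := Real.sqrt_pos.mpr hTP
      have huu : θ * R / (P:ℝ) ^ 3 = u ^ 2 := (Real.sq_sqrt hTP.le).symm
      have e1 : Real.sqrt (θ * R / (6 * (P:ℝ) ^ 3)) = u / Real.sqrt 6 := by
        have : θ * R / (6 * (P:ℝ) ^ 3) = (θ * R / (P:ℝ) ^ 3) / 6 := by field_simp
        rw [this, Real.sqrt_div hTP.le]
      rw [e1, huu]
      have h6 : Real.sqrt 6 ≤ 2.45 := by
        rw [Real.sqrt_le_left (by norm_num)]; norm_num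
      have h60 : 0 < Real.sqrt 6 := Real.sqrt_pos.mpr (by norm_num)
      have e2 : (8 * u ^ 2 * H + 1) * (6 / (u / Real.sqrt 6))
          = 48 * Real.sqrt 6 * (u * H) + 6 * Real.sqrt 6 * (1 / u) := by
        field_simp
        ring
      rw [e2]
      have h7 : 1 / u ≤ 2 * Real.sqrt R := by
        rw [div_le_iff₀ hu0]
        have h8 : 1 / (2 * (P:ℝ)) ≤ θ * R / (P:ℝ) ^ 3 := by
          rw [div_le_div_iff₀ (by positivity) (by positivity)]
          nlinarith
        have h9 : 1 / (4 * (R:ℝ)) ≤ θ * R / (P:ℝ) ^ 3 := by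
          refine le_trans ?_ h8
          apply one_div_le_one_div_of_le (by positivity)
          linarith
        have h10 : Real.sqrt (1 / (4 * (R:ℝ))) ≤ u := Real.sqrt_le_sqrt h9
        have h11 : Real.sqrt (1 / (4 * (R:ℝ))) = 1 / (2 * Real.sqrt R) := by
          rw [Real.sqrt_div (by norm_num), Real.sqrt_one, Real.sqrt_mul (by norm_num)]
          congr 2
          rw [show (4:ℝ) = 2 ^ 2 by norm_num]
          exact Real.sqrt_sq (by norm_num)
        rw [h11] at h10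
        have hsR : 0 < Real.sqrt R := Real.sqrt_pos.mpr (by positivity)
        rw [div_le_iff₀ (by positivity)] at h10
        linarith
      have h12 : 48 * Real.sqrt 6 * (u * H) ≤ 118 * (Real.sqrt θ / R) * H := by
        calc 48 * Real.sqrt 6 * (u * H) ≤ 48 * 2.45 * (Real.sqrt θ / R * H) := by
              gcongr
          _ ≤ 118 * (Real.sqrt θ / R) * H := by
              have : 0 ≤ Real.sqrt θ / R * H := by positivity
              nlinarith
      have h13 : 6 * Real.sqrt 6 * (1 / u) ≤ 30 * Real.sqrt R := by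
        calc 6 * Real.sqrt 6 * (1 / u) ≤ 6 * 2.45 * (2 * Real.sqrt R) := by gcongr
          _ ≤ 30 * Real.sqrt R := by
              have : 0 ≤ Real.sqrt R := by positivity
              nlinarith
      linarith
    · have h5 := norm_sum_ee_le (range H) (fun i => θ * R / ((P : ℝ) + i))
      rw [Finset.card_range] at h5
      refine h5.trans ?_
      have h6 : 1 / 2 ≤ Real.sqrt (θ * R / (P:ℝ) ^ 3) := by
        rw [Real.le_sqrt (by norm_num) (by positivity), le_div_iff₀ (by positivity)]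
        linarith
      have h7 : 1 / 2 ≤ Real.sqrt θ / R := h6.trans hcmp
      nlinarith

/-- the bound for the off-diagonal terms -/
noncomputable def BB (a : ℕ → ℝ) (R H : ℕ) (j : ℕ) : ℝ :=
  32 * R / a j + 118 * (Real.sqrt (a j) / R) * H + 30 * Real.sqrt R

lemma off_diag (a : ℕ → ℝ) (ha : ∀ j, 0 < a j) (hab : ∀ j k, j < k → a j ≤ a k / 2)
    (R P H : ℕ) (hR : 1 ≤ R) (hRP : R ≤ P) (hPH : P + H ≤ 2 * R) (j k : ℕ) (hjk : j < k) :
    ‖∑ i ∈ range H, ee (a j * R / ((P : ℝ) + i)) * (starRingEnd ℂ) (ee (a k * R / ((P : ℝ) + i)))‖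
      ≤ BB a R H k := by
  have h1 : ∀ i : ℕ, ee (a j * R / ((P : ℝ) + i)) * (starRingEnd ℂ) (ee (a k * R / ((P : ℝ) + i)))
      = (starRingEnd ℂ) (ee ((a k - a j) * R / ((P : ℝ) + i))) := by
    intro i
    rw [ee_mul_conj, ← ee_neg]
    congr 1
    ring
  rw [Finset.sum_congr rfl (fun i _ => h1 i), ← map_sum, RCLike.norm_conj]
  have hθ : a k / 2 ≤ a k - a j := by have := hab j k hjk; linarith
  have hak := ha k
  have haj := ha j
  have hθ0 : 0 < a k - a j := by linarith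
  have key := unified_bound (a k - a j) hθ0 R P H hR hRP hPH
  refine key.trans ?_
  unfold BB
  have hR' : (1:ℝ) ≤ R := by exact_mod_cast hR
  have e1 : 16 * (R:ℝ) / (a k - a j) ≤ 32 * R / a k := by
    rw [div_le_div_iff₀ hθ0 hak]
    nlinarith
  have e2 : Real.sqrt (a k - a j) ≤ Real.sqrt (a k) := Real.sqrt_le_sqrt (by linarith)
  gcongr

lemma BB_nonneg (a : ℕ → ℝ) (ha : ∀ j, 0 < a j) (R H : ℕ) (j : ℕ) : 0 ≤ BB a R H j := by
  unfold BB
  have := ha j
  positivity

theorem second_moment (a : ℕ → ℝ) (ha : ∀ j, 0 < a j) (hab : ∀ j k, j < k → a j ≤ a k / 2)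
    (R P H : ℕ) (hR : 1 ≤ R) (hRP : R ≤ P) (hPH : P + H ≤ 2 * R) (j0 M : ℕ) (hM : j0 ≤ M) :
    ∑ i ∈ range H, ‖∑ j ∈ Ico j0 M, ee (a j * R / ((P : ℝ) + i))‖ ^ 2
      ≤ ((M : ℝ) - j0) * (H + 2 * ∑ j ∈ Ico j0 M, BB a R H j) := by
  induction M, hM using Nat.le_induction with
  | base => simp
  | succ M hM ih =>
    set V : ℕ → ℂ := fun i => ∑ j ∈ Ico j0 M, ee (a j * R / ((P : ℝ) + i)) with hV
    have h1 : ∀ i : ℕ, ‖∑ j ∈ Ico j0 (M + 1), ee (a j * R / ((P : ℝ) + i))‖ ^ 2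
        = ‖V i‖ ^ 2 + 1 + 2 * (V i * (starRingEnd ℂ) (ee (a M * R / ((P : ℝ) + i)))).re := by
      intro i
      rw [Finset.sum_Ico_succ_top hM, ← Complex.normSq_eq_norm_sq, Complex.normSq_add,
        Complex.normSq_eq_norm_sq, Complex.normSq_eq_norm_sq, norm_ee]
      simp [hV]
    rw [Finset.sum_congr rfl (fun i _ => h1 i), Finset.sum_add_distrib, Finset.sum_add_distrib,
      Finset.sum_const, Finset.card_range, ← Finset.mul_sum, ← Complex.re_sum]
    have h2 : ∑ i ∈ range H, V i * (starRingEnd ℂ) (ee (a M * R / ((P : ℝ) + i)))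
        = ∑ j ∈ Ico j0 M, ∑ i ∈ range H, ee (a j * R / ((P : ℝ) + i)) *
          (starRingEnd ℂ) (ee (a M * R / ((P : ℝ) + i))) := by
      rw [Finset.sum_comm]
      apply Finset.sum_congr rfl
      intro i _
      rw [hV, Finset.sum_mul]
    have h3 : (∑ i ∈ range H, V i * (starRingEnd ℂ) (ee (a M * R / ((P : ℝ) + i)))).re
        ≤ ((M : ℝ) - j0) * BB a R H M := by
      refine (Complex.re_le_norm _).trans ?_
      rw [h2]
      refine (norm_sum_le _ _).trans ?_
      calc _ ≤ ∑ j ∈ Ico j0 M, BB a R H M := by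
            apply Finset.sum_le_sum
            intro j hj
            exact off_diag a ha hab R P H hR hRP hPH j M (Finset.mem_Ico.mp hj).2
        _ = ((M : ℝ) - j0) * BB a R H M := by
            rw [Finset.sum_const, Nat.card_Ico, nsmul_eq_mul, Nat.cast_sub hM]
    rw [Finset.sum_Ico_succ_top hM]
    have h4 := BB_nonneg a ha R H M
    have h5 : 0 ≤ ∑ j ∈ Ico j0 M, BB a R H j := Finset.sum_nonneg (fun j _ => BB_nonneg a ha R H j)
    have h6 : (0:ℝ) ≤ (M:ℝ) - j0 := by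
      have : (j0:ℝ) ≤ M := by exact_mod_cast hM
      linarith
    push_cast
    rw [nsmul_eq_mul, mul_one]
    nlinarith

end Pool.Agent.H.MP_38ccf3_nt
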