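import Mathlib

set_option autoImplicit false

namespace Pool.Agent.H.MP_38ccf3_nt

open Finset

/-- The additive character `t ↦ exp (2 π i t)`. -/
noncomputable def ee (t : ℝ) : ℂ := Complex.exp ((2 * Real.pi * t : ℝ) * Complex.I)

lemma norm_ee (t : ℝ) : ‖ee t‖ = 1 := by
  unfold ee
  exact Complex.norm_exp_ofReal_mul_I _

lemma ee_add (s t : ℝ) : ee (s + t) = ee s * ee t := by
  unfold ee
  rw [← Complex.exp_add]
  congr 1
  push_cast
  ring

lemma ee_zero : ee 0 = 1 := by simp [ee]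

lemma ee_int (n : ℤ) : ee (n : ℝ) = 1 := by
  unfold ee
  rw [Complex.exp_eq_one_iff]
  exact ⟨n, by push_cast; ring⟩

lemma ee_sub_int (t : ℝ) (n : ℤ) : ee (t - n) = ee t := by
  have h : ee t = ee (t - n) * ee (n : ℝ) := by rw [← ee_add]; congr 1; ring
  rw [h, ee_int, mul_one]

lemma ee_neg (t : ℝ) : ee (-t) = (starRingEnd ℂ) (ee t) := by
  unfold ee
  rw [← Complex.exp_conj]
  congr 1
  rw [map_mul, Complex.conj_ofReal, Complex.conj_I]
  push_cast
  ring

lemma ee_mul_conj (s t : ℝ) : ee s * (starRingEnd ℂ) (ee t) = ee (s - t) := by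
  rw [← ee_neg, ← ee_add]; rfl

lemma norm_ee_sub_le (s t : ℝ) : ‖ee s - ee t‖ ≤ 2 * Real.pi * |s - t| := by
  have h : ee s - ee t = ee t * (ee (s - t) - 1) := by
    rw [mul_sub, ← ee_add, mul_one]; congr 2; ring
  rw [h, norm_mul, norm_ee, one_mul]
  unfold ee
  have := Real.norm_exp_I_mul_ofReal_sub_one_le (x := 2 * Real.pi * (s - t))
  rw [mul_comm] at this
  refine this.trans ?_
  rw [Real.norm_eq_abs, abs_mul, abs_of_pos Real.two_pi_pos]

/-- half of the cotangent of `π g` -/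
noncomputable def hc (g : ℝ) : ℝ := Real.cos (Real.pi * g) / (2 * Real.sin (Real.pi * g))

lemma sin_pos_aux {g δ : ℝ} (hδ : 0 < δ) (h1 : δ ≤ g) (h2 : g ≤ 1 - δ) :
    2 * δ ≤ Real.sin (Real.pi * g) := by
  have hpi := Real.pi_pos
  rcases le_total g (1/2) with h | h
  · have := Real.mul_le_sin (x := Real.pi * g) (by nlinarith) (by nlinarith)
    have h3 : 2 / Real.pi * (Real.pi * g) = 2 * g := by field_simp
    rw [h3] at this
    linarith
  · have := Real.mul_le_sin (x := Real.pi * (1 - g)) (by nlinarith) (by nlinarith)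
    have h3 : 2 / Real.pi * (Real.pi * (1 - g)) = 2 * (1 - g) := by field_simp
    rw [h3] at this
    have h4 : Real.sin (Real.pi * (1 - g)) = Real.sin (Real.pi * g) := by
      rw [mul_sub, mul_one, Real.sin_pi_sub]
    rw [h4] at this
    linarith

lemma one_sub_ee_mul {g δ : ℝ} (hδ : 0 < δ) (h1 : δ ≤ g) (h2 : g ≤ 1 - δ) :
    (1 - ee g) * ((1 / 2 : ℂ) + (hc g : ℂ) * Complex.I) = 1 := by
  have hs := sin_pos_aux hδ h1 h2
  have hs' : Real.sin (Real.pi * g) ≠ 0 := by linarith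
  have h3 : ee g = ((Real.cos (Real.pi * g) : ℂ) + (Real.sin (Real.pi * g) : ℂ) * Complex.I) ^ 2 := by
    unfold ee
    have : (((2 * Real.pi * g : ℝ) : ℂ) * Complex.I) = (2 : ℕ) * (((Real.pi * g : ℝ) : ℂ) * Complex.I) := by
      push_cast; ring
    rw [this, Complex.exp_nat_mul, Complex.exp_mul_I]
    simp
  set c := Real.cos (Real.pi * g) with hcdef
  set s := Real.sin (Real.pi * g) with hsdef
  have hcs : s ^ 2 + c ^ 2 = 1 := Real.sin_sq_add_cos_sq _
  have hcsC : (s : ℂ) ^ 2 + (c : ℂ) ^ 2 = 1 := by exact_mod_cast hcs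
  rw [h3]
  unfold hc
  rw [← hcdef, ← hsdef]
  have hsC : (s : ℂ) ≠ 0 := by exact_mod_cast hs'
  push_cast
  field_simp
  have hI : Complex.I ^ 2 = -1 := Complex.I_sq
  have : ((c : ℂ) + (s : ℂ) * Complex.I) ^ 2 = (c:ℂ)^2 - (s:ℂ)^2 + 2 * c * s * Complex.I := by
    linear_combination (s:ℂ)^2 * hI
  rw [this]
  linear_combination (-(2 * (c:ℂ) * (c:ℂ) * s)) * hI + ((s:ℂ) - c * Complex.I) * hcsC

lemma norm_half_add {g δ : ℝ} (hδ : 0 < δ) (h1 : δ ≤ g) (h2 : g ≤ 1 - δ) :
    ‖(1 / 2 : ℂ) + (hc g : ℂ) * Complex.I‖ ≤ 1 / (4 * δ) := by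
  have hs := sin_pos_aux hδ h1 h2
  have hs' : 0 < Real.sin (Real.pi * g) := by linarith
  have h3 : (1 / 2 : ℂ) + (hc g : ℂ) * Complex.I
      = ((1 / (2 * Real.sin (Real.pi * g)) : ℝ) : ℂ) *
        ((Real.sin (Real.pi * g) : ℂ) + (Real.cos (Real.pi * g) : ℂ) * Complex.I) := by
    unfold hc
    have hsC : ((Real.sin (Real.pi * g) : ℝ) : ℂ) ≠ 0 := by exact_mod_cast hs'.ne'
    push_cast at hsC ⊢
    field_simp
  rw [h3, norm_mul]
  have h4 : ‖((Real.sin (Real.pi * g) : ℂ) + (Real.cos (Real.pi * g) : ℂ) * Complex.I)‖ = 1 := by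
    rw [Complex.norm_add_mul_I, Real.sin_sq_add_cos_sq, Real.sqrt_one]
  rw [h4, mul_one, Complex.norm_real, Real.norm_eq_abs, abs_of_pos (by positivity)]
  apply one_div_le_one_div_of_le (by positivity)
  linarith

lemma hc_abs {g δ : ℝ} (hδ : 0 < δ) (h1 : δ ≤ g) (h2 : g ≤ 1 - δ) :
    |hc g| ≤ 1 / (4 * δ) := by
  have hs := sin_pos_aux hδ h1 h2
  have hs' : 0 < Real.sin (Real.pi * g) := by linarith
  unfold hc
  rw [abs_div, abs_of_pos (show 0 < 2 * Real.sin (Real.pi * g) by positivity)]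
  have := Real.abs_cos_le_one (Real.pi * g)
  calc |Real.cos (Real.pi * g)| / (2 * Real.sin (Real.pi * g))
      ≤ 1 / (2 * Real.sin (Real.pi * g)) := by gcongr
    _ ≤ 1 / (4 * δ) := by
      apply one_div_le_one_div_of_le (by positivity)
      linarith

lemma hc_anti {g g' δ : ℝ} (hδ : 0 < δ) (h1 : δ ≤ g) (h : g ≤ g') (h2 : g' ≤ 1 - δ) :
    hc g' ≤ hc g := by
  have hs := sin_pos_aux hδ h1 (h.trans h2)
  have hs' := sin_pos_aux hδ (h1.trans h) h2
  unfold hc
  rw [div_le_div_iff₀ (by linarith) (by linarith)]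
  have h3 : 0 ≤ Real.sin (Real.pi * g' - Real.pi * g) := by
    apply Real.sin_nonneg_of_nonneg_of_le_pi
    · have := Real.pi_pos; nlinarith
    · have := Real.pi_pos; nlinarith
  rw [Real.sin_sub] at h3
  nlinarith

/-- Kusmin-Landau inequality, with slopes in `[δ, 1-δ]`. -/
theorem kusmin_landau_aux (f : ℕ → ℝ) (δ : ℝ) (hδ : 0 < δ) (n : ℕ)
    (h1 : ∀ i ≤ n, δ ≤ f (i + 1) - f i) (h2 : ∀ i ≤ n, f (i + 1) - f i ≤ 1 - δ)
    (h3 : ∀ i < n, f (i + 1) - f i ≤ f (i + 2) - f (i + 1)) :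
    ‖(∑ i ∈ range (n + 1), ee (f i)) +
        ee (f (n + 1)) * ((1 / 2 : ℂ) + (hc (f (n + 1) - f n) : ℂ) * Complex.I)
        - ee (f 0) * ((1 / 2 : ℂ) + (hc (f 1 - f 0) : ℂ) * Complex.I)‖
      ≤ hc (f 1 - f 0) - hc (f (n + 1) - f n) := by
  have key : ∀ i, δ ≤ f (i + 1) - f i → f (i + 1) - f i ≤ 1 - δ →
      ee (f i) = (ee (f i) - ee (f (i + 1))) *
        ((1 / 2 : ℂ) + (hc (f (i + 1) - f i) : ℂ) * Complex.I) := by
    intro i hi1 hi2
    have h := one_sub_ee_mul hδ hi1 hi2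
    have h' : ee (f i) - ee (f (i + 1)) = ee (f i) * (1 - ee (f (i + 1) - f i)) := by
      rw [mul_sub, ← ee_add, mul_one]; congr 2; ring
    rw [h', mul_assoc, h, mul_one]
  induction n with
  | zero =>
    have h := key 0 (h1 0 le_rfl) (h2 0 le_rfl)
    simp only [zero_add] at h ⊢
    rw [Finset.sum_range_one]
    have : ee (f 0) + ee (f 1) * ((1 / 2 : ℂ) + (hc (f 1 - f 0) : ℂ) * Complex.I)
        - ee (f 0) * ((1 / 2 : ℂ) + (hc (f 1 - f 0) : ℂ) * Complex.I) = 0 := by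
      linear_combination h
    rw [this]
    simp
  | succ n ih =>
    have ih' := ih (fun i hi => h1 i (by omega)) (fun i hi => h2 i (by omega))
      (fun i hi => h3 i (by omega))
    have hk := key (n + 1) (h1 _ le_rfl) (h2 _ le_rfl)
    have hm := hc_anti hδ (h1 n (by omega)) (h3 n (by omega)) (h2 (n + 1) le_rfl)
    rw [Finset.sum_range_succ]
    have e1 : (∑ i ∈ range (n + 1), ee (f i)) + ee (f (n + 1)) +
        ee (f (n + 1 + 1)) * ((1 / 2 : ℂ) + (hc (f (n + 1 + 1) - f (n + 1)) : ℂ) * Complex.I)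
        - ee (f 0) * ((1 / 2 : ℂ) + (hc (f 1 - f 0) : ℂ) * Complex.I)
        = ((∑ i ∈ range (n + 1), ee (f i)) +
        ee (f (n + 1)) * ((1 / 2 : ℂ) + (hc (f (n + 1) - f n) : ℂ) * Complex.I)
        - ee (f 0) * ((1 / 2 : ℂ) + (hc (f 1 - f 0) : ℂ) * Complex.I))
        + ee (f (n + 1)) * (((hc (f (n + 1 + 1) - f (n + 1)) - hc (f (n + 1) - f n) : ℝ) : ℂ)
          * Complex.I) := by
      push_cast
      linear_combination hk
    rw [e1]
    refine (norm_add_le _ _).trans ?_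
    have e2 : ‖ee (f (n + 1)) * (((hc (f (n + 1 + 1) - f (n + 1)) - hc (f (n + 1) - f n) : ℝ) : ℂ)
          * Complex.I)‖ = hc (f (n + 1) - f n) - hc (f (n + 1 + 1) - f (n + 1)) := by
      rw [norm_mul, norm_mul, norm_ee, Complex.norm_I, Complex.norm_real, Real.norm_eq_abs,
        abs_of_nonpos (by linarith)]
      ring
    rw [e2]
    linarith

/-- Kusmin-Landau inequality. -/
theorem kusmin_landau (f : ℕ → ℝ) (δ : ℝ) (hδ : 0 < δ) (ν : ℤ) (n : ℕ)
    (h1 : ∀ i < n, ν + δ ≤ f (i + 1) - f i) (h2 : ∀ i < n, f (i + 1) - f i ≤ ν + 1 - δ)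
    (h3 : ∀ i, i + 1 < n → f (i + 1) - f i ≤ f (i + 2) - f (i + 1)) :
    ‖∑ i ∈ range n, ee (f i)‖ ≤ 1 / δ := by
  rcases Nat.eq_zero_or_pos n with hn | hn
  · subst hn; simp; positivity
  obtain ⟨m, rfl⟩ : ∃ m, n = m + 1 := ⟨n - 1, by omega⟩
  set F : ℕ → ℝ := fun i => f i - ν * i with hF
  have hFf : ∀ i, ee (f i) = ee (F i) := by
    intro i
    have : F i = f i - ((ν * i : ℤ) : ℝ) := by simp [hF]
    rw [this, ee_sub_int]
  have hd : ∀ i, F (i + 1) - F i = f (i + 1) - f i - ν := by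
    intro i; simp only [hF]; push_cast; ring
  have g1 : ∀ i ≤ m, δ ≤ F (i + 1) - F i := by
    intro i hi; rw [hd]; have := h1 i (by omega); linarith
  have g2 : ∀ i ≤ m, F (i + 1) - F i ≤ 1 - δ := by
    intro i hi; rw [hd]; have := h2 i (by omega); linarith
  have g3 : ∀ i < m, F (i + 1) - F i ≤ F (i + 2) - F (i + 1) := by
    intro i hi; rw [hd, hd]; have := h3 i (by omega); linarith
  have key := kusmin_landau_aux F δ hδ m g1 g2 g3
  rw [Finset.sum_congr rfl (fun i _ => hFf i)]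
  have a1 := norm_half_add hδ (g1 0 (by omega)) (g2 0 (by omega))
  have a2 := norm_half_add hδ (g1 m le_rfl) (g2 m le_rfl)
  have b1 := hc_abs hδ (g1 0 (by omega)) (g2 0 (by omega))
  have b2 := hc_abs hδ (g1 m le_rfl) (g2 m le_rfl)
  simp only [zero_add] at a1 b1
  set A := (∑ i ∈ range (m + 1), ee (F i))
  set B := ee (F (m + 1)) * ((1 / 2 : ℂ) + (hc (F (m + 1) - F m) : ℂ) * Complex.I) with hB
  set C := ee (F 0) * ((1 / 2 : ℂ) + (hc (F 1 - F 0) : ℂ) * Complex.I) with hC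
  have hBn : ‖B‖ ≤ 1 / (4 * δ) := by rw [hB, norm_mul, norm_ee, one_mul]; exact a2
  have hCn : ‖C‖ ≤ 1 / (4 * δ) := by rw [hC, norm_mul, norm_ee, one_mul]; exact a1
  have e : A = (A + B - C) - B + C := by ring
  have h4 : ‖A‖ ≤ ‖A + B - C‖ + ‖B‖ + ‖C‖ := by
    calc ‖A‖ = ‖(A + B - C) - B + C‖ := by rw [← e]
      _ ≤ ‖(A + B - C) - B‖ + ‖C‖ := norm_add_le _ _
      _ ≤ ‖A + B - C‖ + ‖B‖ + ‖C‖ := by gcongr; exact norm_sub_le _ _
  have b1' := (abs_le.mp b1).2
  have b2' := (abs_le.mp b2).1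
  have e5 : 1 / δ = 4 * (1 / (4 * δ)) := by field_simp
  rw [e5]
  linarith

lemma slope_mono (g : ℕ → ℝ) (l : ℝ) (n : ℕ) (h : ∀ i < n, l ≤ g (i + 1) - g i)
    (i j : ℕ) (hij : i ≤ j) (hj : j ≤ n) : ((j : ℝ) - i) * l ≤ g j - g i := by
  induction j, hij using Nat.le_induction with
  | base => simp
  | succ j hij ih =>
    have := ih (by omega)
    have := h j (by omega)
    push_cast
    nlinarith

/-- Bound for an exponential sum over a window on which the slope varies by at most `1/2`. -/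
theorem window (f : ℕ → ℝ) (l D : ℝ) (hl : 0 < l) (hD : 0 < D) (hD4 : D ≤ 1 / 4) (n : ℕ)
    (h1 : ∀ i < n, l ≤ (f (i + 2) - f (i + 1)) - (f (i + 1) - f i))
    (h2 : (f (n + 1) - f n) - (f 1 - f 0) ≤ 1 / 2) :
    ‖∑ i ∈ range n, ee (f i)‖ ≤ 2 * D / l + 1 + 2 / D := by
  set g : ℕ → ℝ := fun i => f (i + 1) - f i with hg
  have hgs : ∀ i, g (i + 1) = f (i + 2) - f (i + 1) := fun i => rfl
  have hmono := slope_mono g l n (fun i hi => by rw [hgs]; exact h1 i hi)
  have hmono' : ∀ i j, i ≤ j → j ≤ n → g i ≤ g j := by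
    intro i j hij hj
    have := hmono i j hij hj
    have h3 : (0:ℝ) ≤ ((j : ℝ) - i) * l := by
      apply mul_nonneg _ hl.le
      have : (i : ℝ) ≤ j := by exact_mod_cast hij
      linarith
    linarith
  set ν : ℤ := round (g 0 + 1 / 4) with hν
  have hr : |g 0 + 1 / 4 - ν| ≤ 1 / 2 := abs_sub_round _
  obtain ⟨hr1, hr2⟩ := abs_le.mp hr
  have h2' : g n - g 0 ≤ 1 / 2 := h2
  have hlow : ∀ i ≤ n, (ν : ℝ) - 3 / 4 ≤ g i := by
    intro i hi
    have := hmono' 0 i (by omega) hi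
    linarith
  have hupp : ∀ i ≤ n, g i ≤ ν + 3 / 4 := by
    intro i hi
    have := hmono' i n hi le_rfl
    linarith
  have ha : ∃ i, n ≤ i ∨ (ν : ℝ) - D ≤ g i := ⟨n, Or.inl le_rfl⟩
  have hb : ∃ i, n ≤ i ∨ (ν : ℝ) + D < g i := ⟨n, Or.inl le_rfl⟩
  classical
  set a := Nat.find ha with hadef
  set b := Nat.find hb with hbdef
  have han : a ≤ n := Nat.find_min' ha (Or.inl le_rfl)
  have hbn : b ≤ n := Nat.find_min' hb (Or.inl le_rfl)
  have hab : a ≤ b := by
    apply Nat.find_min' ha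
    rcases Nat.find_spec hb with h | h
    · exact Or.inl h
    · right; linarith
  have ha' : ∀ i < a, g i < ν - D := by
    intro i hi
    have := Nat.find_min ha hi
    push Not at this
    exact this.2
  have hb' : ∀ i < b, g i ≤ ν + D := by
    intro i hi
    have := Nat.find_min hb hi
    push Not at this
    exact this.2
  have ha'' : a < n → (ν : ℝ) - D ≤ g a := by
    intro h
    rcases Nat.find_spec ha with h' | h'
    · exact absurd h' (by omega)
    · exact h'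
  have hb'' : b < n → (ν : ℝ) + D < g b := by
    intro h
    rcases Nat.find_spec hb with h' | h'
    · exact absurd h' (by omega)
    · exact h'
  -- first segment
  have s1 : ‖∑ i ∈ range a, ee (f i)‖ ≤ 1 / D := by
    apply kusmin_landau f D hD (ν - 1) a
    · intro i hi
      have := hlow i (by omega)
      simp only [hg] at this
      push_cast
      linarith
    · intro i hi
      have := ha' i hi
      simp only [hg] at this
      push_cast
      linarith
    · intro i hi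
      have := hmono' i (i + 1) (by omega) (by omega)
      exact this
  have s3 : ‖∑ i ∈ Ico b n, ee (f i)‖ ≤ 1 / D := by
    rw [Finset.sum_Ico_eq_sum_range]
    apply kusmin_landau (fun i => f (b + i)) D hD ν (n - b)
    · intro i hi
      have h5 := hb'' (by omega)
      have h6 := hmono' b (b + i) (by omega) (by omega)
      have h7 : g (b + i) = f (b + (i + 1)) - f (b + i) := rfl
      linarith
    · intro i hi
      have h6 := hupp (b + i) (by omega)
      have h7 : g (b + i) = f (b + (i + 1)) - f (b + i) := rfl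
      linarith
    · intro i hi
      have := hmono' (b + i) (b + i + 1) (by omega) (by omega)
      exact this
  have s2 : ‖∑ i ∈ Ico a b, ee (f i)‖ ≤ 2 * D / l + 1 := by
    have h5 : ‖∑ i ∈ Ico a b, ee (f i)‖ ≤ (b : ℝ) - a := by
      refine (norm_sum_le _ _).trans ?_
      simp only [norm_ee]
      simp [Nat.cast_sub hab]
    refine h5.trans ?_
    rcases Nat.eq_or_lt_of_le hab with h | h
    · rw [h]
      have : 0 ≤ 2 * D / l := by positivity
      linarith
    · have h6 := ha'' (by omega)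
      have h7 := hb' (b - 1) (by omega)
      have h8 := hmono a (b - 1) (by omega) (by omega)
      have h9 : ((b - 1 : ℕ) : ℝ) = (b : ℝ) - 1 := by
        rw [Nat.cast_sub (by omega)]; simp
      rw [h9] at h8
      have h10 : ((b : ℝ) - 1 - a) * l ≤ 2 * D := by linarith
      have h11 : (b : ℝ) - 1 - a ≤ 2 * D / l := by
        rw [le_div_iff₀ hl]; exact h10
      linarith
  have hsplit : ∑ i ∈ range n, ee (f i)
      = ∑ i ∈ range a, ee (f i) + ∑ i ∈ Ico a b, ee (f i) + ∑ i ∈ Ico b n, ee (f i) := by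
    rw [← Finset.sum_range_add_sum_Ico _ han, ← Finset.sum_Ico_consecutive _ hab hbn, add_assoc]
  rw [hsplit]
  have e5 : 2 / D = 1 / D + 1 / D := by ring
  rw [e5]
  calc _ ≤ ‖∑ i ∈ range a, ee (f i)‖ + ‖∑ i ∈ Ico a b, ee (f i)‖ + ‖∑ i ∈ Ico b n, ee (f i)‖ := by
        refine (norm_add_le _ _).trans ?_
        gcongr
        exact norm_add_le _ _
    _ ≤ _ := by linarith

/-- van der Corput second derivative test -/
theorem vdc (f : ℕ → ℝ) (l L : ℝ) (hl : 0 < l) (hl4 : l ≤ 1 / 4) (hlL : l ≤ L) (hL : L ≤ 1 / 2) (n : ℕ)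
    (h1 : ∀ i < n, l ≤ (f (i + 2) - f (i + 1)) - (f (i + 1) - f i))
    (h2 : ∀ i < n, (f (i + 2) - f (i + 1)) - (f (i + 1) - f i) ≤ L) :
    ‖∑ i ∈ range n, ee (f i)‖ ≤ (4 * L * n + 1) * (6 / Real.sqrt l) := by
  have hL0 : 0 < L := hl.trans_le hlL
  set w := ⌊1 / (2 * L)⌋₊ with hw
  have hw1 : 1 ≤ w := by
    rw [hw, Nat.one_le_floor_iff, le_div_iff₀ (by positivity)]
    linarith
  have hw2 : (w : ℝ) ≤ 1 / (2 * L) := Nat.floor_le (by positivity)
  have hw3 : 1 / (4 * L) ≤ w := by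
    have h3 : 1 / (2 * L) < w + 1 := Nat.lt_floor_add_one _
    have h4 : (1:ℝ) ≤ w := by exact_mod_cast hw1
    have h5 : 1 / (4 * L) = (1 / (2 * L)) / 2 := by field_simp; norm_num
    rw [h5]; linarith
  have hwL : (w : ℝ) * L ≤ 1 / 2 := by
    calc (w : ℝ) * L ≤ 1 / (2 * L) * L := by gcongr
      _ = 1 / 2 := by field_simp
  have hwL' : 1 ≤ 4 * L * w := by
    have : 4 * L * (1 / (4 * L)) = 1 := by field_simp
    nlinarith
  set s := Real.sqrt l with hs
  have hs0 : 0 < s := Real.sqrt_pos.mpr hl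
  have hss : s * s = l := Real.mul_self_sqrt hl.le
  have hs1 : s ≤ 1 / 2 := by
    rw [hs]
    calc Real.sqrt l ≤ Real.sqrt (1 / 4) := Real.sqrt_le_sqrt hl4
      _ = 1 / 2 := by
        rw [show (1:ℝ)/4 = (1/2)^2 by norm_num]
        exact Real.sqrt_sq (by norm_num)
  -- one window
  have hwin : ∀ (F : ℕ → ℝ) (m : ℕ), m ≤ w →
      (∀ i < m, l ≤ (F (i + 2) - F (i + 1)) - (F (i + 1) - F i)) →
      (∀ i < m, (F (i + 2) - F (i + 1)) - (F (i + 1) - F i) ≤ L) →
      ‖∑ i ∈ range m, ee (F i)‖ ≤ 6 / s := by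
    intro F m hm hF1 hF2
    have hvar : (F (m + 1) - F m) - (F 1 - F 0) ≤ 1 / 2 := by
      have : ∀ k ≤ m, (F (k + 1) - F k) - (F 1 - F 0) ≤ k * L := by
        intro k hk
        induction k with
        | zero => simp
        | succ k ih =>
          have := ih (by omega)
          have := hF2 k (by omega)
          push_cast
          have e : F (k + 1 + 1) = F (k + 2) := rfl
          rw [e]
          linarith
      have h5 := this m le_rfl
      have h6 : (m : ℝ) * L ≤ w * L := by gcongr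
      linarith
    have := window F l (s / 2) hl (by positivity) (by linarith) m hF1 hvar
    refine this.trans ?_
    have e1 : 2 * (s / 2) / l = 1 / s := by
      rw [← hss]; field_simp
    have e2 : 2 / (s / 2) = 4 / s := by field_simp; norm_num
    rw [e1, e2]
    have e3 : (1:ℝ) ≤ 1 / s := by
      rw [le_div_iff₀ hs0]; linarith
    have e4 : 6 / s = 1 / s + 1 / s + 4 / s := by ring
    rw [e4]; linarith
  -- induction
  have main : ∀ (n : ℕ) (F : ℕ → ℝ),
      (∀ i < n, l ≤ (F (i + 2) - F (i + 1)) - (F (i + 1) - F i)) →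
      (∀ i < n, (F (i + 2) - F (i + 1)) - (F (i + 1) - F i) ≤ L) →
      ‖∑ i ∈ range n, ee (F i)‖ ≤ (4 * L * n + 1) * (6 / s) := by
    intro n
    induction n using Nat.strong_induction_on with
    | _ n ih =>
      intro F hF1 hF2
      rcases le_total n w with h | h
      · refine (hwin F n h hF1 hF2).trans ?_
        have : 0 ≤ 6 / s := by positivity
        have : 0 ≤ 4 * L * n := by positivity
        nlinarith
      · have hs1 : ∑ i ∈ range n, ee (F i)
            = ∑ i ∈ range w, ee (F i) + ∑ i ∈ range (n - w), ee (F (w + i)) := by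
          rw [← Finset.sum_range_add_sum_Ico _ h, Finset.sum_Ico_eq_sum_range]
        rw [hs1]
        have a1 := hwin F w le_rfl (fun i hi => hF1 i (by omega)) (fun i hi => hF2 i (by omega))
        have a2 := ih (n - w) (by omega) (fun i => F (w + i))
          (fun i hi => hF1 (w + i) (by omega)) (fun i hi => hF2 (w + i) (by omega))
        refine (norm_add_le _ _).trans ?_
        have e1 : ((n - w : ℕ) : ℝ) = n - w := by rw [Nat.cast_sub h]
        rw [e1] at a2
        have h6 : 0 < 6 / s := by positivity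
        have : (4 * L * n + 1) * (6 / s) =
          (4 * L * ((n:ℝ) - w) + 1) * (6 / s) + (4 * L * w) * (6 / s) := by ring
        rw [this]
        have : 1 * (6 / s) ≤ (4 * L * w) * (6 / s) := by gcongr
        linarith
  exact main n f h1 h2

lemma inv_diff1 (T x : ℝ) (hx : 0 < x) : T / (x + 1) - T / x = - (T / (x * (x + 1))) := by
  have : x + 1 ≠ 0 := by positivity
  field_simp
  ring

lemma inv_diff2 (T x : ℝ) (hx : 0 < x) :
    (T / (x + 2) - T / (x + 1)) - (T / (x + 1) - T / x) = 2 * T / (x * (x + 1) * (x + 2)) := by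
  have : x + 1 ≠ 0 := by positivity
  have : x + 2 ≠ 0 := by positivity
  field_simp
  ring

/-- small slopes -/
theorem sum_inv_small (T : ℝ) (hT : 0 < T) (P n : ℕ) (hP : 0 < P) (hn : n ≤ P)
    (hTP : T ≤ (P : ℝ) ^ 2 / 2) :
    ‖∑ i ∈ range n, ee (T / ((P : ℝ) + i))‖ ≤ 4 * (P : ℝ) ^ 2 / T := by
  have hP' : (1:ℝ) ≤ P := by exact_mod_cast hP
  have hd : 0 < T / (4 * (P:ℝ) ^ 2) := by positivity
  have key := kusmin_landau (fun i => T / ((P : ℝ) + i)) (T / (4 * (P:ℝ) ^ 2)) hd (-1) n ?_ ?_ ?_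
  · rw [one_div_div] at key
    exact key
  · intro i hi
    have e : ((P : ℝ) + ((i + 1 : ℕ) : ℝ)) = ((P : ℝ) + i) + 1 := by push_cast; ring
    have hx : 0 < (P : ℝ) + i := by positivity
    simp only [e]
    rw [inv_diff1 T _ hx]
    have h5 : T / (4 * (P:ℝ) ^ 2) ≤ 1 / 8 := by
      rw [div_le_iff₀ (by positivity)]; linarith
    have h6 : T / (((P : ℝ) + i) * (((P : ℝ) + i) + 1)) ≤ 1 / 2 := by
      rw [div_le_iff₀ (by positivity)]
      have : (P : ℝ) ^ 2 ≤ ((P : ℝ) + i) * (((P : ℝ) + i) + 1) := by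
        have : (0:ℝ) ≤ i := by positivity
        nlinarith
      linarith
    push_cast
    linarith
  · intro i hi
    have e : ((P : ℝ) + ((i + 1 : ℕ) : ℝ)) = ((P : ℝ) + i) + 1 := by push_cast; ring
    have hx : 0 < (P : ℝ) + i := by positivity
    simp only [e]
    rw [inv_diff1 T _ hx]
    have hi' : (i : ℝ) + 1 ≤ P := by
      have : i + 1 ≤ P := by omega
      exact_mod_cast this
    have h6 : T / (4 * (P:ℝ) ^ 2) ≤ T / (((P : ℝ) + i) * (((P : ℝ) + i) + 1)) := by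
      apply div_le_div_of_nonneg_left hT.le (by positivity)
      have : (0:ℝ) ≤ i := by positivity
      nlinarith
    push_cast
    linarith
  · intro i hi
    have e : ((P : ℝ) + ((i + 1 : ℕ) : ℝ)) = ((P : ℝ) + i) + 1 := by push_cast; ring
    have e2 : ((P : ℝ) + ((i + 2 : ℕ) : ℝ)) = ((P : ℝ) + i) + 2 := by push_cast; ring
    have hx : 0 < (P : ℝ) + i := by positivity
    simp only [e, e2]
    have := inv_diff2 T _ hx
    have h0 : 0 < 2 * T / (((P : ℝ) + i) * ((P : ℝ) + i + 1) * ((P : ℝ) + i + 2)) := by positivity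
    linarith

/-- large slopes -/
theorem sum_inv_large (T : ℝ) (hT : 0 < T) (P n : ℕ) (hP : 0 < P) (hn : n ≤ P)
    (hTP : T ≤ (P : ℝ) ^ 3 / 4) :
    ‖∑ i ∈ range n, ee (T / ((P : ℝ) + i))‖
      ≤ (8 * (T / (P : ℝ) ^ 3) * n + 1) * (6 / Real.sqrt (T / (6 * (P : ℝ) ^ 3))) := by
  have hP' : (1:ℝ) ≤ P := by exact_mod_cast hP
  have hd : 0 < T / (6 * (P:ℝ) ^ 3) := by positivity
  have hd2 : 0 < T / (P:ℝ) ^ 3 := by positivity
  have hTP' : T / (P : ℝ) ^ 3 ≤ 1 / 4 := by
    rw [div_le_iff₀ (by positivity)]; linarith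
  have e0 : T / (6 * (P:ℝ) ^ 3) = (T / (P:ℝ) ^ 3) / 6 := by
    field_simp
  have key := vdc (fun i => T / ((P : ℝ) + i)) (T / (6 * (P:ℝ) ^ 3)) (2 * (T / (P:ℝ) ^ 3)) hd
    (by rw [e0]; linarith) (by rw [e0]; linarith) (by linarith) n ?_ ?_
  · have e1 : 4 * (2 * (T / (P:ℝ) ^ 3)) * n = 8 * (T / (P : ℝ) ^ 3) * n := by ring
    rw [e1] at key
    exact key
  · intro i hi
    have e : ((P : ℝ) + ((i + 1 : ℕ) : ℝ)) = ((P : ℝ) + i) + 1 := by push_cast; ring
    have e2 : ((P : ℝ) + ((i + 2 : ℕ) : ℝ)) = ((P : ℝ) + i) + 2 := by push_cast; ring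
    have hx : 0 < (P : ℝ) + i := by positivity
    simp only [e, e2]
    rw [inv_diff2 T _ hx]
    have hi' : (i : ℝ) + 1 ≤ P := by
      have : i + 1 ≤ P := by omega
      exact_mod_cast this
    have hi0 : (0:ℝ) ≤ i := by positivity
    rw [div_le_div_iff₀ (by positivity) (by positivity)]
    have h7 : ((P : ℝ) + i) * ((P : ℝ) + i + 1) * ((P : ℝ) + i + 2) ≤ 12 * (P:ℝ) ^ 3 := by
      calc ((P : ℝ) + i) * ((P : ℝ) + i + 1) * ((P : ℝ) + i + 2)
          ≤ (2 * (P:ℝ)) * (2 * P) * (3 * P) := by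
            gcongr <;> linarith
        _ = 12 * (P:ℝ) ^ 3 := by ring
    nlinarith
  · intro i hi
    have e : ((P : ℝ) + ((i + 1 : ℕ) : ℝ)) = ((P : ℝ) + i) + 1 := by push_cast; ring
    have e2 : ((P : ℝ) + ((i + 2 : ℕ) : ℝ)) = ((P : ℝ) + i) + 2 := by push_cast; ring
    have hx : 0 < (P : ℝ) + i := by positivity
    simp only [e, e2]
    rw [inv_diff2 T _ hx, ← mul_div_assoc]
    have hi0 : (0:ℝ) ≤ i := by positivity
    apply div_le_div_of_nonneg_left (by positivity) (by positivity)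
    calc (P:ℝ) ^ 3 = P * P * P := by ring
      _ ≤ ((P : ℝ) + i) * ((P : ℝ) + i + 1) * ((P : ℝ) + i + 2) := by
            gcongr <;> linarith

end Pool.Agent.H.MP_38ccf3_nt
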