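import Pool.Agent.H.MP_38ccf3_nt.KL

set_option autoImplicit false

namespace Pool.Agent.H.MP_38ccf3_nt

open Finset Filter Topology MeasureTheory AddCircle

/-- average of a continuous function along a sequence -/
noncomputable def avg (u : ℕ → ℝ) (N : ℕ) (f : C(UnitAddCircle, ℂ)) : ℂ :=
  (∑ n ∈ range (N + 1), f (u n : UnitAddCircle)) / ((N : ℂ) + 1)

lemma fourier_eq_ee (n : ℤ) (t : ℝ) : fourier n (t : UnitAddCircle) = ee (n * t) := by
  rw [fourier_coe_apply]
  unfold ee
  congr 1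
  push_cast
  ring

lemma integral_fourier (n : ℤ) (hn : n ≠ 0) :
    ∫ x : UnitAddCircle, fourier n x ∂haarAddCircle = 0 := by
  have h := congrFun (fourierCoeff_fourier (T := 1) n) 0
  unfold fourierCoeff at h
  simpa [hn, Pi.single_apply, hn.symm] using h

lemma avg_fourier (u : ℕ → ℝ)
    (hu : ∀ h : ℕ, 1 ≤ h → Tendsto (fun N : ℕ => ‖∑ n ∈ range N, ee (h * u n)‖ / N) atTop (𝓝 0))
    (n : ℤ) : Tendsto (fun N => avg u N (fourier n)) atTop
      (𝓝 (∫ x : UnitAddCircle, fourier n x ∂haarAddCircle)) := by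
  rcases eq_or_ne n 0 with hn | hn
  · subst hn
    have h1 : ∀ N, avg u N (fourier 0) = 1 := by
      intro N
      unfold avg
      simp only [fourier_zero, sum_const, card_range, nsmul_eq_mul, mul_one]
      push_cast
      exact div_self (by exact_mod_cast Nat.succ_ne_zero N)
    simp only [h1]
    simp
  · rw [integral_fourier n hn]
    have h1 : 1 ≤ n.natAbs := Nat.one_le_iff_ne_zero.mpr (by simpa using hn)
    have h2 := (hu n.natAbs h1).comp (tendsto_add_atTop_nat 1)
    rw [tendsto_zero_iff_norm_tendsto_zero]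
    refine h2.congr ?_
    intro N
    simp only [Function.comp]
    unfold avg
    rw [norm_div]
    have h3 : ‖((N:ℂ) + 1)‖ = ((N + 1 : ℕ) : ℝ) := by
      rw [← Nat.cast_succ, Complex.norm_natCast]
    rw [h3]
    congr 1
    simp only [fourier_eq_ee]
    rcases le_total 0 n with h | h
    · have : ((n.natAbs : ℕ) : ℝ) = (n : ℝ) := by
        rw [Nat.cast_natAbs, abs_of_nonneg h]
      rw [this]
    · have : ((n.natAbs : ℕ) : ℝ) = -(n : ℝ) := by
        rw [Nat.cast_natAbs, abs_of_nonpos h]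
        push_cast
        ring
      rw [this]
      simp only [neg_mul, ee_neg]
      rw [← map_sum, RCLike.norm_conj]

lemma avg_norm_le (u : ℕ → ℝ) (N : ℕ) (f : C(UnitAddCircle, ℂ)) : ‖avg u N f‖ ≤ ‖f‖ := by
  unfold avg
  rw [norm_div]
  have h3 : ‖((N:ℂ) + 1)‖ = ((N : ℝ) + 1) := by
    rw [← Nat.cast_succ, Complex.norm_natCast]; push_cast; ring
  rw [h3, div_le_iff₀ (by positivity)]
  refine (norm_sum_le _ _).trans ?_
  calc ∑ n ∈ range (N + 1), ‖f (u n : UnitAddCircle)‖ ≤ ∑ n ∈ range (N + 1), ‖f‖ :=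
        Finset.sum_le_sum (fun n _ => f.norm_coe_le_norm _)
    _ = ‖f‖ * ((N : ℝ) + 1) := by simp [mul_comm]

lemma avg_add (u : ℕ → ℝ) (N : ℕ) (f g : C(UnitAddCircle, ℂ)) :
    avg u N (f + g) = avg u N f + avg u N g := by
  unfold avg
  simp only [ContinuousMap.add_apply, Finset.sum_add_distrib, add_div]

lemma avg_smul (u : ℕ → ℝ) (N : ℕ) (c : ℂ) (f : C(UnitAddCircle, ℂ)) :
    avg u N (c • f) = c * avg u N f := by
  unfold avg
  simp only [ContinuousMap.smul_apply, smul_eq_mul, ← Finset.mul_sum, mul_div_assoc]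

lemma cont_integrable (f : C(UnitAddCircle, ℂ)) : Integrable (fun x => f x) haarAddCircle :=
  f.continuous.integrable_of_hasCompactSupport (HasCompactSupport.of_compactSpace _)

theorem avg_tendsto (u : ℕ → ℝ)
    (hu : ∀ h : ℕ, 1 ≤ h → Tendsto (fun N : ℕ => ‖∑ n ∈ range N, ee (h * u n)‖ / N) atTop (𝓝 0))
    (f : C(UnitAddCircle, ℂ)) : Tendsto (fun N => avg u N f) atTop
      (𝓝 (∫ x : UnitAddCircle, f x ∂haarAddCircle)) := by
  have hspan : ∀ g ∈ Submodule.span ℂ (Set.range (@fourier 1)),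
      Tendsto (fun N => avg u N g) atTop (𝓝 (∫ x : UnitAddCircle, g x ∂haarAddCircle)) := by
    intro g hg
    induction hg using Submodule.span_induction with
    | mem x hx =>
      obtain ⟨n, rfl⟩ := hx
      exact avg_fourier u hu n
    | zero =>
      simp [avg]
    | add x y _ _ hx hy =>
      simp only [avg_add, ContinuousMap.add_apply]
      rw [integral_add (cont_integrable x) (cont_integrable y)]
      exact hx.add hy
    | smul c x _ hx =>
      simp only [avg_smul, ContinuousMap.smul_apply, smul_eq_mul]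
      rw [integral_const_mul]
      exact hx.const_mul c
  have hf : f ∈ closure ((Submodule.span ℂ (Set.range (@fourier 1)) : Submodule ℂ _) : Set C(UnitAddCircle, ℂ)) := by
    have := span_fourier_closure_eq_top (T := 1)
    have h2 : f ∈ (Submodule.span ℂ (Set.range (@fourier 1))).topologicalClosure := by
      rw [this]; trivial
    exact h2
  rw [Metric.tendsto_atTop]
  intro ε hε
  obtain ⟨g, hg, hfg⟩ := Metric.mem_closure_iff.mp hf (ε / 4) (by positivity)
  obtain ⟨N0, hN0⟩ := Metric.tendsto_atTop.mp (hspan g hg) (ε / 4) (by positivity)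
  refine ⟨N0, fun N hN => ?_⟩
  have h1 := hN0 N hN
  rw [dist_eq_norm] at h1 hfg ⊢
  have h2 : avg u N f = avg u N g + avg u N (f - g) := by
    rw [← avg_add]; congr 1; ring
  have h3 : ∫ x : UnitAddCircle, f x ∂haarAddCircle
      = ∫ x : UnitAddCircle, g x ∂haarAddCircle + ∫ x : UnitAddCircle, (f - g) x ∂haarAddCircle := by
    rw [← integral_add (cont_integrable g) (cont_integrable (f - g))]
    congr 1
    ext x
    simp
  have h4 := avg_norm_le u N (f - g)
  have h5 : ‖∫ x : UnitAddCircle, (f - g) x ∂haarAddCircle‖ ≤ ‖f - g‖ := by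
    refine (norm_integral_le_of_norm_le_const (C := ‖f - g‖)
      (Filter.Eventually.of_forall (fun x => (f - g).norm_coe_le_norm x))).trans ?_
    simp
  rw [h2, h3]
  calc ‖avg u N g + avg u N (f - g) - (∫ x : UnitAddCircle, g x ∂haarAddCircle +
        ∫ x : UnitAddCircle, (f - g) x ∂haarAddCircle)‖
      = ‖(avg u N g - ∫ x : UnitAddCircle, g x ∂haarAddCircle) + (avg u N (f - g) -
        ∫ x : UnitAddCircle, (f - g) x ∂haarAddCircle)‖ := by congr 1; ring
    _ ≤ ‖avg u N g - ∫ x : UnitAddCircle, g x ∂haarAddCircle‖ + (‖avg u N (f - g)‖ +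
        ‖∫ x : UnitAddCircle, (f - g) x ∂haarAddCircle‖) := by
        refine (norm_add_le _ _).trans ?_
        gcongr
        exact norm_sub_le _ _
    _ < ε := by linarith

/-- empirical measure -/
noncomputable def emp (u : ℕ → ℝ) (N : ℕ) : Measure UnitAddCircle :=
  ((N + 1 : ℕ) : ENNReal)⁻¹ • ∑ n ∈ range (N + 1), Measure.dirac (u n : UnitAddCircle)

lemma emp_univ (u : ℕ → ℝ) (N : ℕ) : emp u N Set.univ = 1 := by
  unfold emp
  simp only [Measure.smul_apply, Measure.coe_finsetSum, Finset.sum_apply, measure_univ, sum_const,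
    card_range, smul_eq_mul, nsmul_eq_mul, mul_one]
  exact ENNReal.inv_mul_cancel (by simp) (by simp)

noncomputable def empP (u : ℕ → ℝ) (N : ℕ) : ProbabilityMeasure UnitAddCircle :=
  ⟨emp u N, ⟨emp_univ u N⟩⟩

noncomputable def haarP : ProbabilityMeasure UnitAddCircle := ⟨haarAddCircle, inferInstance⟩

theorem empP_tendsto (u : ℕ → ℝ)
    (hu : ∀ h : ℕ, 1 ≤ h → Tendsto (fun N : ℕ => ‖∑ n ∈ range N, ee (h * u n)‖ / N) atTop (𝓝 0)) :
    Tendsto (empP u) atTop (𝓝 haarP) := by
  rw [ProbabilityMeasure.tendsto_iff_forall_integral_rclike_tendsto ℂ]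
  intro f
  have h1 := avg_tendsto u hu f.toContinuousMap
  have h2 : ∀ N, ∫ x, f x ∂((empP u N : ProbabilityMeasure UnitAddCircle) : Measure UnitAddCircle)
      = avg u N f.toContinuousMap := by
    intro N
    show ∫ x, f x ∂(emp u N) = _
    unfold emp avg
    rw [integral_smul_measure, integral_finsetSum_measure]
    · simp only [integral_dirac]
      rw [div_eq_inv_mul, ENNReal.toReal_inv, ENNReal.toReal_natCast, Complex.real_smul]
      push_cast
      rfl
    · intro n _
      exact integrable_dirac (by simp [enorm_lt_top])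
  simp only [h2]
  exact h1

/-- an arc of the circle -/
def arc (a b : ℝ) : Set UnitAddCircle := (fun t : ℝ => (t : UnitAddCircle)) '' Set.Ico a b

lemma coe_eq_iff (s t : ℝ) : (s : UnitAddCircle) = (t : UnitAddCircle) ↔ ∃ n : ℤ, s = t + n := by
  rw [← sub_eq_zero, ← AddCircle.coe_sub, AddCircle.coe_eq_zero_iff]
  constructor
  · rintro ⟨n, hn⟩
    exact ⟨n, by simp at hn; linarith⟩
  · rintro ⟨n, hn⟩
    exact ⟨n, by simp; linarith⟩

lemma mem_arc (a b : ℝ) (ha : 0 ≤ a) (hb : b ≤ 1) (t : ℝ) :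
    (t : UnitAddCircle) ∈ arc a b ↔ Int.fract t ∈ Set.Ico a b := by
  constructor
  · rintro ⟨s, hs, hst⟩
    obtain ⟨n, hn⟩ := (coe_eq_iff s t).mp hst
    have h1 : Int.fract t = s := by
      rw [Int.fract_eq_iff]
      refine ⟨by linarith [hs.1], by linarith [hs.2], -n, ?_⟩
      push_cast
      linarith
    rw [h1]; exact hs
  · intro h
    refine ⟨Int.fract t, h, ?_⟩
    apply (coe_eq_iff _ _).mpr
    exact ⟨-⌊t⌋, by push_cast; rw [Int.fract]; ring⟩

lemma arc_frontier (a b : ℝ) : frontier (arc a b) ⊆ {(a : UnitAddCircle), (b : UnitAddCircle)} := by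
  intro z hz
  rw [frontier, Set.mem_sdiff] at hz
  obtain ⟨hz1, hz2⟩ := hz
  have hclosed : IsClosed ((fun t : ℝ => (t : UnitAddCircle)) '' Set.Icc a b) :=
    (isCompact_Icc.image (AddCircle.continuous_mk' 1)).isClosed
  have h1 : closure (arc a b) ⊆ (fun t : ℝ => (t : UnitAddCircle)) '' Set.Icc a b :=
    closure_minimal (Set.image_mono Set.Ico_subset_Icc_self) hclosed
  have hopen : IsOpen ((fun t : ℝ => (t : UnitAddCircle)) '' Set.Ioo a b) :=
    QuotientAddGroup.isOpenMap_coe _ isOpen_Ioo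
  have h2 : (fun t : ℝ => (t : UnitAddCircle)) '' Set.Ioo a b ⊆ interior (arc a b) :=
    interior_maximal (Set.image_mono Set.Ioo_subset_Ico_self) hopen
  obtain ⟨t, ht, rfl⟩ := h1 hz1
  rcases eq_or_lt_of_le ht.1 with h | h
  · left; rw [h]
  rcases eq_or_lt_of_le ht.2 with h' | h'
  · right; rw [h']; rfl
  · exact absurd (h2 ⟨t, ⟨h, h'⟩, rfl⟩) hz2

lemma haar_eq_vol : (haarAddCircle : Measure UnitAddCircle) = volume := by
  rw [AddCircle.volume_eq_smul_haarAddCircle]
  simp

lemma arc_measurable (a b : ℝ) (ha : 0 ≤ a) (hb : b ≤ 1) : MeasurableSet (arc a b) := by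
  have h1 : arc a b = (fun z : UnitAddCircle => ((AddCircle.measurableEquivIco 1 0 z : Set.Ico (0:ℝ) (0 + 1)) : ℝ)) ⁻¹'
      Set.Ico a b := by
    ext z
    induction z using QuotientAddGroup.induction_on with
    | H t =>
      have h2 := AddCircle.coe_equivIco_mk_apply (𝕜 := ℝ) (p := 1) t
      rw [Set.mem_preimage]
      have h3 : ((AddCircle.measurableEquivIco 1 0 (t : UnitAddCircle) : Set.Ico (0:ℝ) (0 + 1)) : ℝ)
        = Int.fract t := by
        have h4 : ((AddCircle.measurableEquivIco 1 0 (t : UnitAddCircle) : Set.Ico (0:ℝ) (0 + 1)) : ℝ)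
          = ((AddCircle.equivIco 1 0 (t : UnitAddCircle) : Set.Ico (0:ℝ) (0 + 1)) : ℝ) := rfl
        rw [h4]
        refine h2.trans ?_
        simp
      rw [h3]
      exact mem_arc a b ha hb t
  rw [h1]
  apply MeasurableSet.preimage measurableSet_Ico
  exact measurable_subtype_coe.comp (AddCircle.measurableEquivIco 1 0).measurable

lemma haar_arc (a b : ℝ) (ha : 0 ≤ a) (hb : b ≤ 1) :
    haarAddCircle (arc a b) = ENNReal.ofReal (b - a) := by
  have hmeas := arc_measurable a b ha hb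
  rw [haar_eq_vol, ← (UnitAddCircle.measurePreserving_mk 0).measure_preimage hmeas.nullMeasurableSet]
  rw [Measure.restrict_apply' measurableSet_Ioc]
  apply le_antisymm
  · calc volume ((fun t : ℝ => (t : UnitAddCircle)) ⁻¹' arc a b ∩ Set.Ioc (0:ℝ) (0 + 1))
        ≤ volume (Set.Ico a b ∪ {(1:ℝ)}) := by
          apply measure_mono
          rintro t ⟨ht1, ht2⟩
          have h5 := (mem_arc a b ha hb t).mp ht1
          rcases eq_or_lt_of_le ht2.2 with h | h
          · right; simpa using h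
          · left
            have : Int.fract t = t := Int.fract_eq_self.mpr ⟨ht2.1.le, by simpa using h⟩
            rwa [this] at h5
      _ ≤ volume (Set.Ico a b) + volume ({(1:ℝ)} : Set ℝ) := measure_union_le _ _
      _ = ENNReal.ofReal (b - a) := by simp
  · calc ENNReal.ofReal (b - a) = volume (Set.Ioo a b) := by simp
      _ ≤ _ := by
          apply measure_mono
          intro t ht
          refine ⟨?_, ?_⟩
          · apply (mem_arc a b ha hb t).mpr
            have : Int.fract t = t := Int.fract_eq_self.mpr ⟨by linarith [ht.1], by linarith [ht.2]⟩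
            rw [this]
            exact ⟨ht.1.le, ht.2⟩
          · exact ⟨by linarith [ht.1], by linarith [ht.2]⟩

lemma haar_pair (x y : UnitAddCircle) : haarAddCircle ({x, y} : Set UnitAddCircle) = 0 := by
  have h0 : ∀ x : UnitAddCircle, haarAddCircle ({x} : Set UnitAddCircle) = 0 := by
    intro x
    rw [haar_eq_vol]
    have := AddCircle.volume_closedBall (T := 1) (x := x) 0
    rw [Metric.closedBall_zero] at this
    rw [this]; simp
  have h1 : ({x, y} : Set UnitAddCircle) = {x} ∪ {y} := Set.insert_eq x {y}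
  rw [h1]
  apply le_antisymm _ bot_le
  refine (measure_union_le _ _).trans ?_
  rw [h0, h0]; simp

/-- Weyl criterion for intervals. -/
theorem weyl_interval (u : ℕ → ℝ)
    (hu : ∀ h : ℕ, 1 ≤ h → Tendsto (fun N : ℕ => ‖∑ n ∈ range N, ee (h * u n)‖ / N) atTop (𝓝 0))
    (a b : ℝ) (ha : 0 ≤ a) (hab : a ≤ b) (hb : b ≤ 1) :
    Tendsto (fun N : ℕ => (((range N).filter (fun n => Int.fract (u n) ∈ Set.Ico a b)).card : ℝ) / N)
      atTop (𝓝 (b - a)) := by
  have h1 := empP_tendsto u hu
  have h2 := ProbabilityMeasure.tendsto_measure_of_null_frontier_of_tendsto' h1 (E := arc a b)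
    (measure_mono_null (arc_frontier a b) (haar_pair _ _))
  have h3 : ((haarP : ProbabilityMeasure UnitAddCircle) : Measure UnitAddCircle) (arc a b)
      = ENNReal.ofReal (b - a) := haar_arc a b ha hb
  rw [h3] at h2
  have h4 : Tendsto (fun N : ℕ => (((range (N + 1)).filter
      (fun n => Int.fract (u n) ∈ Set.Ico a b)).card : ℝ) / ((N + 1 : ℕ) : ℝ)) atTop (𝓝 (b - a)) := by
    have h5 := (ENNReal.tendsto_toReal ENNReal.ofReal_ne_top).comp h2
    rw [ENNReal.toReal_ofReal (by linarith)] at h5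
    refine h5.congr ?_
    intro N
    simp only [Function.comp]
    show (emp u N (arc a b)).toReal = _
    unfold emp
    simp only [Measure.smul_apply, Measure.coe_finsetSum, Finset.sum_apply, smul_eq_mul]
    have h6 : ∀ n, (Measure.dirac (u n : UnitAddCircle)) (arc a b)
        = if Int.fract (u n) ∈ Set.Ico a b then 1 else 0 := by
      intro n
      rw [Measure.dirac_apply' _ (arc_measurable a b ha hb)]
      by_cases hmem : Int.fract (u n) ∈ Set.Ico a b
      · rw [if_pos hmem, Set.indicator_of_mem ((mem_arc a b ha hb _).mpr hmem)]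
        rfl
      · rw [if_neg hmem, Set.indicator_of_notMem (fun h => hmem ((mem_arc a b ha hb _).mp h))]
    simp only [h6]
    rw [Finset.sum_ite, Finset.sum_const_zero, add_zero, Finset.sum_const, nsmul_eq_mul, mul_one,
      ENNReal.toReal_mul, ENNReal.toReal_inv, ENNReal.toReal_natCast, ENNReal.toReal_natCast,
      div_eq_inv_mul]
  exact (tendsto_add_atTop_iff_nat (f := fun N : ℕ => (((range N).filter
      (fun n => Int.fract (u n) ∈ Set.Ico a b)).card : ℝ) / (N : ℝ)) 1).mp h4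

lemma floor_mod_iff (B : ℕ) (hB : 0 < B) (y : ℝ) (m : ℤ) (hm0 : 0 ≤ m) (hmB : m < B) :
    ⌊(B : ℝ) * y⌋ % (B : ℤ) = m ↔ Int.fract y ∈ Set.Ico ((m : ℝ) / B) (((m : ℝ) + 1) / B) := by
  have hB' : (0:ℝ) < B := by exact_mod_cast hB
  have h1 : (B : ℝ) * y = (B : ℝ) * Int.fract y + ((B * ⌊y⌋ : ℤ) : ℝ) := by
    push_cast
    rw [Int.fract]; ring
  rw [h1, Int.floor_add_intCast]
  have h2 : 0 ≤ ⌊(B : ℝ) * Int.fract y⌋ := by
    apply Int.floor_nonneg.mpr
    have := Int.fract_nonneg y
    positivity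
  have h3 : ⌊(B : ℝ) * Int.fract y⌋ < B := by
    rw [Int.floor_lt]
    have := Int.fract_lt_one y
    push_cast
    nlinarith
  rw [Int.add_mul_emod_self_left, Int.emod_eq_of_lt h2 h3, Int.floor_eq_iff, Set.mem_Ico,
    div_le_iff₀ hB', lt_div_iff₀ hB', mul_comm]

/-- `x` is normal in base `r` (all digit blocks have the right frequency). -/
def IsNormalBase (r : ℕ) (x : ℝ) : Prop :=
  ∀ k : ℕ, 1 ≤ k → ∀ m : ℤ, 0 ≤ m → m < (r : ℤ) ^ k →
    Tendsto (fun N : ℕ =>
      (((Finset.range N).filter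
        (fun n : ℕ => ⌊(r : ℝ) ^ (n + k) * x⌋ % (r : ℤ) ^ k = m)).card : ℝ) / (N : ℝ))
      atTop (𝓝 (1 / (r : ℝ) ^ k))

theorem normal_of_weyl (r : ℕ) (hr : 2 ≤ r) (x : ℝ)
    (hx : ∀ h : ℕ, 1 ≤ h → Tendsto (fun N : ℕ =>
      ‖∑ n ∈ range N, ee (h * ((r : ℝ) ^ n * x))‖ / N) atTop (𝓝 0)) : IsNormalBase r x := by
  intro k hk m hm0 hm1
  have hr' : (0:ℝ) < r := by exact_mod_cast (by omega : 0 < r)
  have hB : 0 < r ^ k := by positivity
  have hB' : (0:ℝ) < ((r ^ k : ℕ) : ℝ) := by exact_mod_cast hB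
  have hm1' : m < ((r ^ k : ℕ) : ℤ) := by push_cast; exact hm1
  have hm1'' : (m : ℝ) + 1 ≤ ((r ^ k : ℕ) : ℝ) := by
    have : m + 1 ≤ ((r ^ k : ℕ) : ℤ) := by omega
    exact_mod_cast this
  have hm0' : (0:ℝ) ≤ m := by exact_mod_cast hm0
  have key := weyl_interval (fun n => (r : ℝ) ^ n * x) hx ((m : ℝ) / ((r ^ k : ℕ) : ℝ))
    (((m : ℝ) + 1) / ((r ^ k : ℕ) : ℝ)) (by positivity)
    (by gcongr; linarith) (by rw [div_le_one hB']; exact hm1'')
  have e1 : ((m : ℝ) + 1) / ((r ^ k : ℕ) : ℝ) - (m : ℝ) / ((r ^ k : ℕ) : ℝ) = 1 / (r : ℝ) ^ k := by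
    rw [← sub_div]; push_cast; ring
  rw [e1] at key
  refine key.congr ?_
  intro N
  congr 2
  apply congrArg
  apply Finset.filter_congr
  intro n _
  have h1 := floor_mod_iff (r ^ k) hB ((r : ℝ) ^ n * x) m hm0 hm1'
  rw [← h1]
  have e2 : (((r ^ k : ℕ) : ℝ)) * ((r : ℝ) ^ n * x) = (r : ℝ) ^ (n + k) * x := by
    push_cast; rw [pow_add]; ring
  rw [e2]
  push_cast
  rfl

end Pool.Agent.H.MP_38ccf3_nt
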