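import Pool.Agent.H.MP_38ccf3_nt.Stage
import Pool.Agent.H.MP_38ccf3_nt.Weyl

set_option autoImplicit false

namespace Pool.Agent.H.MP_38ccf3_nt

open Finset Filter Topology

/-- base used at stage `k`; each base occurs infinitely often -/
def bs (k : ℕ) : ℕ := (Nat.unpair k).1 + 2

/-- the pairs (base, frequency) controlled at stage `k` -/
def FF (k : ℕ) : Finset (ℕ × ℕ) :=
  (range (k + 1) ×ˢ range (k + 1)).filter (fun x => 2 ≤ x.1 ∧ 1 ≤ x.2)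

lemma FF_prop (k : ℕ) : ∀ x ∈ FF k, 2 ≤ x.1 ∧ 1 ≤ x.2 := by
  intro x hx
  exact (Finset.mem_filter.mp hx).2

lemma mem_FF (b h k : ℕ) (hb : 2 ≤ b) (hh : 1 ≤ h) (hk1 : b ≤ k) (hk2 : h ≤ k) : (b, h) ∈ FF k := by
  unfold FF
  simp only [mem_filter, mem_product, mem_range]
  omega

lemma bs_le (k : ℕ) : bs k ≤ k + 2 := by
  unfold bs
  have := Nat.unpair_left_le k
  omega

lemma bs_two (k : ℕ) : 2 ≤ bs k := by
  unfold bs; omega

/-- weights -/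
noncomputable def ww : ℕ × ℕ → ℝ := (posSumOfEncodable (ε := 1) one_pos (ℕ × ℕ)).1

lemma ww_pos (x : ℕ × ℕ) : 0 < ww x := (posSumOfEncodable (ε := 1) one_pos (ℕ × ℕ)).2.1 x

lemma ww_sum (F : Finset (ℕ × ℕ)) : ∑ x ∈ F, ww x ≤ 1 := by
  obtain ⟨c, hc, hc1⟩ := (posSumOfEncodable (ε := 1) one_pos (ℕ × ℕ)).2.2
  exact (sum_le_hasSum F (fun x _ => (ww_pos x).le) hc).trans hc1

/-- invariant of the states -/
def Inv (s : ℕ × ℕ) : Prop :=
  2 ≤ s.1 ∧ s.1 ≤ s.2 ∧ (s.2 : ℝ) / s.1 + 1 / (s.1 : ℝ) ^ 2 ≤ 2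

/-- step relation -/
def Step (k : ℕ) (s t : ℕ × ℕ) : Prop :=
  t.1 = bs k ^ Nat.clog (bs k) (s.1 ^ 8) ∧
  (s.2 : ℝ) / s.1 ≤ (t.2 : ℝ) / t.1 ∧
  (t.2 : ℝ) / t.1 + 1 / (t.1 : ℝ) ^ 2 < (s.2 : ℝ) / s.1 + 1 / (s.1 : ℝ) ^ 2 ∧
  ∀ x ∈ FF k, ∀ M, Nat.clog x.1 (s.1 ^ 2) ≤ M → M ≤ Nat.clog x.1 (t.1 ^ 2) →
      ‖∑ j ∈ Ico (Nat.clog x.1 (s.1 ^ 2)) M, ee (aa x.1 x.2 j * t.1 / (t.2 : ℝ))‖ ^ 3
        ≤ (8 * 2601 * x.2 / ww x) * ((Nat.clog x.1 (t.1 ^ 2) : ℝ) + 1) ^ 2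

lemma exists_step (k : ℕ) (s : ℕ × ℕ) (hs : Inv s) : ∃ t, Inv t ∧ Step k s t := by
  obtain ⟨Q, p⟩ := s
  obtain ⟨hQ2, hQp, hup⟩ := hs
  simp only at hQ2 hQp hup
  have hr := bs_two k
  set R := bs k ^ Nat.clog (bs k) (Q ^ 8) with hR
  have hQR : Q ^ 8 ≤ R := Nat.le_pow_clog (by omega) _
  have hQ' : (2:ℝ) ≤ Q := by exact_mod_cast hQ2
  have hQR' : (Q:ℝ) ^ 8 ≤ R := by exact_mod_cast hQR
  have hQ8 : 64 * (Q:ℝ) ^ 2 ≤ (Q:ℝ) ^ 8 := by
    have h1 : (2:ℝ) ^ 6 ≤ (Q:ℝ) ^ 6 := pow_le_pow_left₀ (by norm_num) hQ' 6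
    have h2 : (Q:ℝ) ^ 8 = (Q:ℝ) ^ 6 * (Q:ℝ) ^ 2 := by ring
    rw [h2]
    norm_num at h1
    gcongr
  have hQ2pos : (0:ℝ) < (Q:ℝ) ^ 2 := by positivity
  have hRpos : (0:ℝ) < R := by linarith
  have hR2 : 2 ≤ R := by
    have : (2:ℝ) ≤ R := by nlinarith
    exact_mod_cast this
  set P := R * p / Q + 1 with hP
  set H := R / Q ^ 2 - 1 with hH
  -- real bounds for the floors
  have f1 : ((R / Q ^ 2 : ℕ) : ℝ) ≤ (R:ℝ) / (Q:ℝ) ^ 2 := by
    have := Nat.cast_div_le (α := ℝ) (m := R) (n := Q ^ 2)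
    push_cast at this
    exact this
  have f2 : (R:ℝ) / (Q:ℝ) ^ 2 < ((R / Q ^ 2 : ℕ) : ℝ) + 1 := by
    rw [div_lt_iff₀ hQ2pos]
    have h1 : R < (R / Q ^ 2 + 1) * Q ^ 2 := by
      have := Nat.lt_div_mul_add (a := R) (b := Q ^ 2) (by positivity)
      calc R < R / Q ^ 2 * Q ^ 2 + Q ^ 2 := this
        _ = _ := by ring
    exact_mod_cast h1
  have f3 : ((R * p / Q : ℕ) : ℝ) ≤ (R:ℝ) * p / Q := by
    have := Nat.cast_div_le (α := ℝ) (m := R * p) (n := Q)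
    push_cast at this
    exact this
  have f4 : (R:ℝ) * p / Q < ((R * p / Q : ℕ) : ℝ) + 1 := by
    rw [div_lt_iff₀ (by positivity)]
    have h1 : R * p < (R * p / Q + 1) * Q := by
      have := Nat.lt_div_mul_add (a := R * p) (b := Q) (by positivity)
      calc R * p < R * p / Q * Q + Q := this
        _ = _ := by ring
    exact_mod_cast h1
  have hbig : (64:ℝ) ≤ (R:ℝ) / (Q:ℝ) ^ 2 := by
    rw [le_div_iff₀ hQ2pos]; linarith
  have hdiv1 : 1 ≤ R / Q ^ 2 := by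
    have : (1:ℝ) ≤ ((R / Q ^ 2 : ℕ) : ℝ) := by linarith
    exact_mod_cast this
  have hHc : (H : ℝ) = ((R / Q ^ 2 : ℕ) : ℝ) - 1 := by
    rw [hH, Nat.cast_sub hdiv1]; simp
  have hRH : R ≤ 2 * Q ^ 2 * H := by
    have h1 : (R:ℝ) / (Q:ℝ) ^ 2 ≤ 2 * H := by rw [hHc]; linarith
    rw [div_le_iff₀ hQ2pos] at h1
    have : (R:ℝ) ≤ 2 * (Q:ℝ) ^ 2 * H := by linarith
    exact_mod_cast this
  have hpQ : (1:ℝ) ≤ (p:ℝ) / Q := by
    rw [le_div_iff₀ (by positivity), one_mul]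
    exact_mod_cast hQp
  have hPc : (P : ℝ) = ((R * p / Q : ℕ) : ℝ) + 1 := by rw [hP]; push_cast; ring
  have e1 : (R:ℝ) * p / Q = R * (p / Q) := by ring
  have e2 : (R:ℝ) / (Q:ℝ) ^ 2 = R * (1 / (Q:ℝ) ^ 2) := by ring
  have hRP : R ≤ P := by
    have : (R:ℝ) ≤ P := by rw [hPc]; nlinarith
    exact_mod_cast this
  have hPH : P + H ≤ 2 * R := by
    have : (P:ℝ) + H ≤ 2 * R := by
      rw [hPc, hHc]
      nlinarith
    exact_mod_cast this
  obtain ⟨i, hi, hi2⟩ := stage ww ww_pos ww_sum (FF k) (FF_prop k) Q R P H (by omega) hR2 hQR hRH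
    hRP hPH
  have hiH : (i:ℝ) + 1 ≤ H := by exact_mod_cast hi
  have hi0 : (0:ℝ) ≤ i := by positivity
  have g1 : (p:ℝ) / Q ≤ ((P + i : ℕ) : ℝ) / R := by
    rw [le_div_iff₀ hRpos]
    push_cast
    rw [hPc]
    nlinarith
  have g2 : ((P + i : ℕ) : ℝ) / R + 1 / (R:ℝ) ^ 2 < (p:ℝ) / Q + 1 / (Q:ℝ) ^ 2 := by
    have h1 : ((P + i : ℕ) : ℝ) + 1 / R < R * ((p:ℝ) / Q + 1 / (Q:ℝ) ^ 2) := by
      have h2 : 1 / (R:ℝ) < 1 := by
        rw [div_lt_one hRpos]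
        have : (2:ℝ) ≤ R := by exact_mod_cast hR2
        linarith
      push_cast
      rw [hPc]
      nlinarith
    have h3 : ((P + i : ℕ) : ℝ) / R + 1 / (R:ℝ) ^ 2 = (((P + i : ℕ) : ℝ) + 1 / R) / R := by
      field_simp
    rw [h3, div_lt_iff₀ hRpos]
    linarith
  refine ⟨(R, P + i), ⟨hR2, by simp only; omega, by simp only; linarith⟩, rfl, g1, g2, ?_⟩
  intro x hx M hM0 hM1
  have := hi2 x hx M hM0 hM1
  simpa using this

lemma inv_init : Inv (2, 2) := by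
  refine ⟨by norm_num, by norm_num, by norm_num⟩

/-- the sequence of states -/
noncomputable def st : ℕ → {s : ℕ × ℕ // Inv s}
  | 0 => ⟨(2, 2), inv_init⟩
  | (k + 1) => ⟨(exists_step k (st k).1 (st k).2).choose,
      (exists_step k (st k).1 (st k).2).choose_spec.1⟩

lemma st_step (k : ℕ) : Step k (st k).1 (st (k + 1)).1 :=
  (exists_step k (st k).1 (st k).2).choose_spec.2

/-- the denominators -/
noncomputable def QQ (k : ℕ) : ℕ := (st k).1.1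
/-- the numerators -/
noncomputable def pp (k : ℕ) : ℕ := (st k).1.2

lemma QQ_two (k : ℕ) : 2 ≤ QQ k := (st k).2.1
lemma QQ_le_pp (k : ℕ) : QQ k ≤ pp k := (st k).2.2.1
lemma up_le (k : ℕ) : (pp k : ℝ) / QQ k + 1 / (QQ k : ℝ) ^ 2 ≤ 2 := (st k).2.2.2
lemma QQ_succ (k : ℕ) : QQ (k + 1) = bs k ^ Nat.clog (bs k) (QQ k ^ 8) := (st_step k).1
lemma low_mono (k : ℕ) : (pp k : ℝ) / QQ k ≤ (pp (k + 1) : ℝ) / QQ (k + 1) := (st_step k).2.1
lemma up_anti (k : ℕ) : (pp (k + 1) : ℝ) / QQ (k + 1) + 1 / (QQ (k + 1) : ℝ) ^ 2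
    < (pp k : ℝ) / QQ k + 1 / (QQ k : ℝ) ^ 2 := (st_step k).2.2.1
lemma bound_step (k : ℕ) (b h : ℕ) (hx : (b, h) ∈ FF k) (M : ℕ)
    (hM0 : Nat.clog b (QQ k ^ 2) ≤ M) (hM1 : M ≤ Nat.clog b (QQ (k + 1) ^ 2)) :
    ‖∑ j ∈ Ico (Nat.clog b (QQ k ^ 2)) M, ee (aa b h j * QQ (k + 1) / (pp (k + 1) : ℝ))‖ ^ 3
        ≤ (8 * 2601 * h / ww (b, h)) * ((Nat.clog b (QQ (k + 1) ^ 2) : ℝ) + 1) ^ 2 :=
  (st_step k).2.2.2 (b, h) hx M hM0 hM1

lemma QQ_pow_le (k : ℕ) : QQ k ^ 8 ≤ QQ (k + 1) := by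
  rw [QQ_succ]
  exact Nat.le_pow_clog (by have := bs_two k; omega) _

lemma QQ_ge (k : ℕ) : k + 2 ≤ QQ k := by
  induction k with
  | zero => exact QQ_two 0
  | succ k ih =>
    have h1 := QQ_pow_le k
    have h2 := QQ_two k
    have h3 : QQ k * 2 ≤ QQ k ^ 8 := by
      calc QQ k * 2 ≤ QQ k * QQ k := Nat.mul_le_mul_left _ h2
        _ = QQ k ^ 2 := by ring
        _ ≤ QQ k ^ 8 := Nat.pow_le_pow_right (by omega) (by norm_num)
    omega

lemma QQ_succ_le (k : ℕ) : QQ (k + 1) ≤ QQ k ^ 9 := by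
  have h1 : 1 < QQ k ^ 8 := Nat.one_lt_pow (by norm_num) (by have := QQ_two k; omega)
  have h2 : bs k ^ (Nat.clog (bs k) (QQ k ^ 8) - 1) < QQ k ^ 8 :=
    Nat.pow_pred_clog_lt_self (by have := bs_two k; omega) h1
  have h3 : 0 < Nat.clog (bs k) (QQ k ^ 8) := Nat.clog_pos (by have := bs_two k; omega) (by omega)
  have h4 : bs k ^ Nat.clog (bs k) (QQ k ^ 8)
      = bs k ^ (Nat.clog (bs k) (QQ k ^ 8) - 1) * bs k := by
    rw [← pow_succ]; congr 1; omega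
  rw [QQ_succ, h4]
  have h5 : bs k ≤ QQ k := (bs_le k).trans (QQ_ge k)
  calc bs k ^ (Nat.clog (bs k) (QQ k ^ 8) - 1) * bs k ≤ QQ k ^ 8 * QQ k :=
        Nat.mul_le_mul h2.le h5
    _ = QQ k ^ 9 := by ring

lemma low_mono' : Monotone (fun k => (pp k : ℝ) / QQ k) := monotone_nat_of_le_succ low_mono

lemma up_anti' : Antitone (fun k => (pp k : ℝ) / QQ k + 1 / (QQ k : ℝ) ^ 2) :=
  antitone_nat_of_succ_le (fun k => (up_anti k).le)

/-- the limit point -/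
noncomputable def yy : ℝ := ⨆ k, (pp k : ℝ) / QQ k

lemma low_le_up (j k : ℕ) : (pp j : ℝ) / QQ j ≤ (pp k : ℝ) / QQ k + 1 / (QQ k : ℝ) ^ 2 := by
  have h1 := low_mono' (le_max_left j k)
  have h2 := up_anti' (le_max_right j k)
  simp only at h1 h2
  have h3 : 0 ≤ 1 / (QQ (max j k) : ℝ) ^ 2 := by positivity
  linarith

lemma low_le_yy (k : ℕ) : (pp k : ℝ) / QQ k ≤ yy := by
  apply le_ciSup (f := fun k => (pp k : ℝ) / QQ k)
  refine ⟨(pp 0 : ℝ) / QQ 0 + 1 / (QQ 0 : ℝ) ^ 2, ?_⟩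
  rintro _ ⟨j, rfl⟩
  exact low_le_up j 0

lemma yy_le_up (k : ℕ) : yy ≤ (pp k : ℝ) / QQ k + 1 / (QQ k : ℝ) ^ 2 :=
  ciSup_le (fun j => low_le_up j k)

lemma yy_lt_up (k : ℕ) : yy < (pp k : ℝ) / QQ k + 1 / (QQ k : ℝ) ^ 2 :=
  lt_of_le_of_lt (yy_le_up (k + 1)) (up_anti k)

lemma one_le_low (k : ℕ) : (1:ℝ) ≤ (pp k : ℝ) / QQ k := by
  have h1 : (0:ℝ) < QQ k := by exact_mod_cast (by have := QQ_two k; omega : 0 < QQ k)
  rw [le_div_iff₀ h1, one_mul]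
  exact_mod_cast QQ_le_pp k

lemma one_le_yy : 1 ≤ yy := (one_le_low 0).trans (low_le_yy 0)

/-- the number whose powers of bases are equidistributed -/
noncomputable def xx : ℝ := yy⁻¹

lemma xx_close (k : ℕ) : |xx - (QQ k : ℝ) / pp k| ≤ 1 / (QQ k : ℝ) ^ 2 := by
  have h1 : (0:ℝ) < QQ k := by exact_mod_cast (by have := QQ_two k; omega : 0 < QQ k)
  have h2 := one_le_low k
  have h3 := low_le_yy k
  have h4 := yy_le_up k
  set z := (pp k : ℝ) / QQ k with hz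
  have h5 : (QQ k : ℝ) / pp k = z⁻¹ := by rw [hz, inv_div]
  rw [h5]
  unfold xx
  have hz0 : 0 < z := by linarith
  have hy0 : 0 < yy := by linarith
  have h6 : yy⁻¹ - z⁻¹ = -((yy - z) / (yy * z)) := by field_simp; ring
  rw [h6, abs_neg, abs_of_nonneg (by apply div_nonneg; linarith; positivity)]
  rw [div_le_iff₀ (by positivity)]
  have h7 : 1 ≤ yy * z := by nlinarith
  have h8 : 0 < 1 / (QQ k : ℝ) ^ 2 := by positivity
  nlinarith

/-- transfer from the rational approximation to the limit -/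
lemma transfer (b h k : ℕ) (hb : 2 ≤ b) (j0 M : ℕ) (hM : M ≤ Nat.clog b (QQ k ^ 2)) :
    ‖∑ j ∈ Ico j0 M, ee (h * ((b:ℝ) ^ j * xx)) - ∑ j ∈ Ico j0 M, ee (aa b h j * QQ k / (pp k : ℝ))‖
      ≤ 7 * Real.pi * h := by
  have hpi := Real.pi_pos
  rcases Nat.eq_zero_or_pos M with hM0 | hM0
  · subst hM0
    simp
    positivity
  rw [← Finset.sum_sub_distrib]
  refine (norm_sum_le _ _).trans ?_
  have hQ1 : (0:ℝ) < QQ k := by exact_mod_cast (by have := QQ_two k; omega : 0 < QQ k)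
  have hterm : ∀ j ∈ Ico j0 M, ‖ee (h * ((b:ℝ) ^ j * xx)) - ee (aa b h j * QQ k / (pp k : ℝ))‖
      ≤ (2 * Real.pi * h / (QQ k : ℝ) ^ 2) * (b:ℝ) ^ j := by
    intro j _
    refine (norm_ee_sub_le _ _).trans ?_
    have e1 : h * ((b:ℝ) ^ j * xx) - aa b h j * QQ k / (pp k : ℝ)
        = (h * (b:ℝ) ^ j) * (xx - (QQ k : ℝ) / pp k) := by
      unfold aa; ring
    rw [e1, abs_mul, abs_of_nonneg (by positivity)]
    have := xx_close k
    calc 2 * Real.pi * (h * (b:ℝ) ^ j * |xx - (QQ k : ℝ) / pp k|)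
        ≤ 2 * Real.pi * (h * (b:ℝ) ^ j * (1 / (QQ k : ℝ) ^ 2)) := by gcongr
      _ = _ := by ring
  refine (Finset.sum_le_sum hterm).trans ?_
  rw [← Finset.mul_sum]
  have hsub : ∑ j ∈ Ico j0 M, (b:ℝ) ^ j ≤ ∑ j ∈ range ((M - 1) + 1), (b:ℝ) ^ j := by
    apply Finset.sum_le_sum_of_subset_of_nonneg
    · intro j hj
      simp only [mem_Ico, mem_range] at hj ⊢
      omega
    · intro i _ _
      positivity
  have hb' : (1.4:ℝ) ≤ b := by
    have : (2:ℝ) ≤ b := by exact_mod_cast hb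
    linarith
  have h2 := sum_pow_le (b:ℝ) hb' (M - 1)
  have hQ2 : 1 < QQ k ^ 2 := Nat.one_lt_pow (by norm_num) (by have := QQ_two k; omega)
  have h1 : b ^ (Nat.clog b (QQ k ^ 2) - 1) < QQ k ^ 2 := Nat.pow_pred_clog_lt_self (by omega) hQ2
  have h3 : b ^ (M - 1) ≤ QQ k ^ 2 := by
    refine le_trans ?_ h1.le
    apply Nat.pow_le_pow_right (by omega)
    omega
  have h3' : (b:ℝ) ^ (M - 1) ≤ (QQ k : ℝ) ^ 2 := by exact_mod_cast h3
  calc (2 * Real.pi * h / (QQ k : ℝ) ^ 2) * ∑ j ∈ Ico j0 M, (b:ℝ) ^ j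
      ≤ (2 * Real.pi * h / (QQ k : ℝ) ^ 2) * (3.5 * (QQ k : ℝ) ^ 2) := by
        gcongr
        linarith
    _ = 7 * Real.pi * h := by field_simp; ring

lemma small_o (C A ε : ℝ) (hC : 0 ≤ C) (hε : 0 < ε) : ∃ J0 : ℕ, ∀ J : ℕ, J0 ≤ J →
    ∀ E : ℝ, E ^ 3 ≤ C * ((J : ℝ) + 1) ^ 2 → E + A ≤ ε * J := by
  obtain ⟨J1, hJ1⟩ := exists_nat_ge (32 * C / ε ^ 3)
  obtain ⟨J2, hJ2⟩ := exists_nat_ge (2 * A / ε)
  refine ⟨max (max J1 J2) 1, ?_⟩
  intro J hJ E hE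
  have hJa : J1 ≤ J := (le_max_left J1 J2).trans ((le_max_left _ 1).trans hJ)
  have hJb : J2 ≤ J := (le_max_right J1 J2).trans ((le_max_left _ 1).trans hJ)
  have hJc : 1 ≤ J := (le_max_right _ 1).trans hJ
  have a1 : 32 * C / ε ^ 3 ≤ J := hJ1.trans (by exact_mod_cast hJa)
  have a2 : 2 * A / ε ≤ J := hJ2.trans (by exact_mod_cast hJb)
  have a3 : (1:ℝ) ≤ J := by exact_mod_cast hJc
  rw [div_le_iff₀ (by positivity)] at a1 a2
  have b1 : E ^ 3 ≤ (ε * J / 2) ^ 3 := by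
    have c1 : C * ((J : ℝ) + 1) ^ 2 ≤ C * (4 * (J:ℝ) ^ 2) := by
      gcongr
      nlinarith
    have c2 : C * (4 * (J:ℝ) ^ 2) ≤ (ε * J / 2) ^ 3 := by
      have e1 : C * (4 * (J:ℝ) ^ 2) = (32 * C) * ((J:ℝ) ^ 2 / 8) := by ring
      have e2 : (ε * J / 2) ^ 3 = (J * ε ^ 3) * ((J:ℝ) ^ 2 / 8) := by ring
      rw [e1, e2]
      gcongr
    linarith
  have b2 : E ≤ ε * J / 2 := by
    by_contra hcon
    push Not at hcon
    have h0 : 0 ≤ ε * J / 2 := by positivity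
    have := pow_lt_pow_left₀ hcon h0 (by norm_num : (3:ℕ) ≠ 0)
    linarith
  linarith

/-- the ranges -/
noncomputable def JJ (b k : ℕ) : ℕ := Nat.clog b (QQ k ^ 2)

lemma JJ_large (b : ℕ) (hb : 2 ≤ b) (B : ℕ) : ∃ K, ∀ k, K ≤ k → B ≤ JJ b k := by
  refine ⟨b ^ B, ?_⟩
  intro k hk
  by_contra hcon
  push Not at hcon
  have h1 : QQ k ^ 2 ≤ b ^ JJ b k := Nat.le_pow_clog (by omega) _
  have h2 : b ^ JJ b k ≤ b ^ B := Nat.pow_le_pow_right (by omega) hcon.le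
  have h3 := QQ_ge k
  have h4 : QQ k ≤ QQ k ^ 2 := by
    calc QQ k = QQ k ^ 1 := (pow_one _).symm
      _ ≤ QQ k ^ 2 := Nat.pow_le_pow_right (by omega) (by norm_num)
  omega

lemma JJ_succ_le (b : ℕ) (hb : 2 ≤ b) (k : ℕ) : JJ b (k + 1) ≤ 9 * JJ b k := by
  apply Nat.clog_le_of_le_pow
  have h1 : QQ k ^ 2 ≤ b ^ JJ b k := Nat.le_pow_clog (by omega) _
  calc QQ (k + 1) ^ 2 ≤ (QQ k ^ 9) ^ 2 := Nat.pow_le_pow_left (QQ_succ_le k) 2
    _ = (QQ k ^ 2) ^ 9 := by ring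
    _ ≤ (b ^ JJ b k) ^ 9 := Nat.pow_le_pow_left h1 9
    _ = b ^ (9 * JJ b k) := by rw [← pow_mul]; ring_nf

lemma JJ_succ_ge (b : ℕ) (hb : 2 ≤ b) (k : ℕ) (hk : 2 ≤ JJ b k) : 2 * JJ b k ≤ JJ b (k + 1) := by
  have hQ2 : 1 < QQ k ^ 2 := Nat.one_lt_pow (by norm_num) (by have := QQ_two k; omega)
  have h1 : b ^ (JJ b k - 1) < QQ k ^ 2 := Nat.pow_pred_clog_lt_self (by omega) hQ2
  have h2 : QQ (k + 1) ^ 2 ≤ b ^ JJ b (k + 1) := Nat.le_pow_clog (by omega) _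
  have h3 : b ^ ((JJ b k - 1) * 8) < b ^ JJ b (k + 1) := by
    calc b ^ ((JJ b k - 1) * 8) = (b ^ (JJ b k - 1)) ^ 8 := by rw [pow_mul]
      _ < (QQ k ^ 2) ^ 8 := Nat.pow_lt_pow_left h1 (by norm_num)
      _ = (QQ k ^ 8) ^ 2 := by ring
      _ ≤ QQ (k + 1) ^ 2 := Nat.pow_le_pow_left (QQ_pow_le k) 2
      _ ≤ b ^ JJ b (k + 1) := h2
  have h4 := (Nat.pow_lt_pow_iff_right (by omega : 1 < b)).mp h3
  omega

lemma JJ_mono (b : ℕ) : Monotone (JJ b) := by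
  apply monotone_nat_of_le_succ
  intro k
  apply Nat.clog_mono_right
  apply Nat.pow_le_pow_left
  have h1 := QQ_pow_le k
  have h2 := QQ_two k
  calc QQ k = QQ k ^ 1 := (pow_one _).symm
    _ ≤ QQ k ^ 8 := Nat.pow_le_pow_right (by omega) (by norm_num)
    _ ≤ QQ (k + 1) := h1

lemma stage_sum (b h : ℕ) (hb : 2 ≤ b) (hh : 1 ≤ h) (ε : ℝ) (hε : 0 < ε) :
    ∃ K, ∀ k, K ≤ k → ∀ M, JJ b k ≤ M → M ≤ JJ b (k + 1) →
      ‖∑ j ∈ Ico (JJ b k) M, ee (h * ((b:ℝ) ^ j * xx))‖ ≤ ε * JJ b (k + 1) := by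
  have hC : 0 ≤ 8 * 2601 * (h:ℝ) / ww (b, h) := by
    have := ww_pos (b, h)
    positivity
  obtain ⟨J0, hJ0⟩ := small_o _ (7 * Real.pi * (h:ℝ)) ε hC hε
  obtain ⟨K1, hK1⟩ := JJ_large b hb J0
  refine ⟨max K1 (max b h), ?_⟩
  intro k hk M hM0 hM1
  have hk1 : K1 ≤ k := (le_max_left _ _).trans hk
  have hk2 : b ≤ k := ((le_max_left b h).trans (le_max_right _ _)).trans hk
  have hk3 : h ≤ k := ((le_max_right b h).trans (le_max_right _ _)).trans hk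
  have h1 := bound_step k b h (mem_FF b h k hb hh hk2 hk3) M hM0 hM1
  have h2 := transfer b h (k + 1) hb (JJ b k) M hM1
  have h3 := hJ0 (JJ b (k + 1)) (hK1 (k + 1) (by omega)) _ h1
  refine le_trans ?_ h3
  have h4 := norm_add_le (∑ j ∈ Ico (JJ b k) M, ee (aa b h j * QQ (k + 1) / (pp (k + 1) : ℝ)))
    (∑ j ∈ Ico (JJ b k) M, ee (h * ((b:ℝ) ^ j * xx)) -
      ∑ j ∈ Ico (JJ b k) M, ee (aa b h j * QQ (k + 1) / (pp (k + 1) : ℝ)))
  rw [add_sub_cancel] at h4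
  refine h4.trans ?_
  gcongr
  exact le_rfl

theorem weyl_xx (b h : ℕ) (hb : 2 ≤ b) (hh : 1 ≤ h) : Tendsto (fun N : ℕ =>
      ‖∑ n ∈ range N, ee (h * ((b : ℝ) ^ n * xx))‖ / N) atTop (𝓝 0) := by
  rw [Metric.tendsto_atTop]
  intro ε hε
  set δ := ε / 24 with hδ
  have hδ0 : 0 < δ := by positivity
  obtain ⟨K1, hK1⟩ := stage_sum b h hb hh δ hδ0
  obtain ⟨K2, hK2⟩ := JJ_large b hb 2
  set K := max K1 K2 with hK
  set a : ℕ → ℝ := fun N => ‖∑ n ∈ range N, ee (h * ((b : ℝ) ^ n * xx))‖ with ha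
  have hsplit : ∀ j M, j ≤ M → a M ≤ a j + ‖∑ n ∈ Ico j M, ee (h * ((b:ℝ) ^ n * xx))‖ := by
    intro j M hjM
    simp only [ha]
    rw [← Finset.sum_range_add_sum_Ico _ hjM]
    exact norm_add_le _ _
  have hJJ : ∀ k, K ≤ k → a (JJ b k) ≤ a (JJ b K) + 2 * δ * JJ b k := by
    intro k hk
    induction k, hk using Nat.le_induction with
    | base =>
      have : 0 ≤ 2 * δ * JJ b K := by positivity
      linarith
    | succ k hk ih =>
      have h1 := hsplit (JJ b k) (JJ b (k + 1)) (JJ_mono b (Nat.le_succ k))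
      have h2 := hK1 k ((le_max_left _ _).trans hk) (JJ b (k + 1)) (JJ_mono b (Nat.le_succ k)) le_rfl
      have h3 := JJ_succ_ge b hb k (hK2 k ((le_max_right _ _).trans hk))
      have h3' : 2 * (JJ b k : ℝ) ≤ JJ b (k + 1) := by exact_mod_cast h3
      nlinarith
  obtain ⟨N1, hN1⟩ := exists_nat_ge (a (JJ b K) / δ)
  refine ⟨max (max N1 (JJ b K)) 1, ?_⟩
  intro N hN
  have hNa : N1 ≤ N := ((le_max_left _ _).trans (le_max_left _ _)).trans hN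
  have hNb : JJ b K ≤ N := ((le_max_right _ _).trans (le_max_left _ _)).trans hN
  have hNc : 1 ≤ N := (le_max_right _ _).trans hN
  -- find the stage
  have hex : ∃ k, N < JJ b k := by
    obtain ⟨K3, hK3⟩ := JJ_large b hb (N + 1)
    exact ⟨K3, hK3 K3 le_rfl⟩
  classical
  set k' := Nat.find hex with hk'
  have hk1 : N < JJ b k' := Nat.find_spec hex
  have hk2 : K < k' := by
    by_contra hcon
    push Not at hcon
    have := JJ_mono b hcon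
    omega
  have hk3 : ¬ N < JJ b (k' - 1) := Nat.find_min hex (by omega)
  push Not at hk3
  set k := k' - 1 with hkdef
  have hkk : k' = k + 1 := by omega
  rw [hkk] at hk1
  have hKk : K ≤ k := by omega
  have h1 := hJJ k hKk
  have h2 := hsplit (JJ b k) N hk3
  have h3 := hK1 k ((le_max_left _ _).trans hKk) N hk3 hk1.le
  have h4 := JJ_succ_le b hb k
  have h4' : (JJ b (k + 1) : ℝ) ≤ 9 * JJ b k := by exact_mod_cast h4
  have h5 : (JJ b k : ℝ) ≤ N := by exact_mod_cast hk3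
  have h6 : a (JJ b K) ≤ δ * N := by
    rw [div_le_iff₀ hδ0] at hN1
    have : (N1 : ℝ) ≤ N := by exact_mod_cast hNa
    nlinarith
  have h7 : a N ≤ 12 * δ * N := by nlinarith
  have hN0 : (0:ℝ) < N := by exact_mod_cast (by omega : 0 < N)
  rw [Real.dist_eq, sub_zero, abs_of_nonneg (by positivity)]
  have h8 : a N / N ≤ 12 * δ := by
    rw [div_le_iff₀ hN0]; exact h7
  have h9 : 12 * δ < ε := by rw [hδ]; linarith
  exact lt_of_le_of_lt h8 h9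

theorem xx_normal (r : ℕ) (hr : 2 ≤ r) : IsNormalBase r xx :=
  normal_of_weyl r hr xx (fun h hh => weyl_xx r h hr hh)

lemma digit_zero (k n : ℕ) (hn : QQ (k + 1) = bs k ^ n) (i : ℕ) (hi1 : n ≤ i) (hi2 : i < 2 * n) :
    ⌊(bs k : ℝ) ^ (i + 1) * yy⌋ % (bs k : ℤ) = 0 := by
  have hr := bs_two k
  have hr' : (2:ℝ) ≤ bs k := by exact_mod_cast hr
  have hr0 : (0:ℝ) < bs k := by linarith
  have h1 := low_le_yy (k + 1)
  have h2 := yy_lt_up (k + 1)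
  rw [hn] at h1 h2
  push_cast at h1 h2
  obtain ⟨d, hd⟩ : ∃ d, i + 1 = n + (d + 1) := ⟨i - n, by omega⟩
  have hfl : ⌊(bs k : ℝ) ^ (i + 1) * yy⌋ = (pp (k + 1) : ℤ) * (bs k : ℤ) ^ (d + 1) := by
    rw [Int.floor_eq_iff]
    have hpos : (0:ℝ) < (bs k : ℝ) ^ n := by positivity
    have hposd : (0:ℝ) < (bs k : ℝ) ^ (d + 1) := by positivity
    constructor
    · push_cast
      rw [hd, pow_add (bs k : ℝ) n (d + 1)]
      rw [div_le_iff₀ hpos] at h1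
      calc (pp (k + 1) : ℝ) * (bs k : ℝ) ^ (d + 1) ≤ (yy * (bs k : ℝ) ^ n) * (bs k : ℝ) ^ (d + 1) := by
            gcongr
        _ = _ := by ring
    · push_cast
      rw [hd, pow_add (bs k : ℝ) n (d + 1)]
      have h3 : ((bs k : ℝ) ^ n * (bs k : ℝ) ^ (d + 1)) * yy
          < ((bs k : ℝ) ^ n * (bs k : ℝ) ^ (d + 1)) *
            ((pp (k + 1) : ℝ) / (bs k : ℝ) ^ n + 1 / ((bs k : ℝ) ^ n) ^ 2) := by
        gcongr
      have h4 : ((bs k : ℝ) ^ n * (bs k : ℝ) ^ (d + 1)) *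
            ((pp (k + 1) : ℝ) / (bs k : ℝ) ^ n + 1 / ((bs k : ℝ) ^ n) ^ 2)
          = (pp (k + 1) : ℝ) * (bs k : ℝ) ^ (d + 1) + (bs k : ℝ) ^ (d + 1) / (bs k : ℝ) ^ n := by
        field_simp
      have h5 : (bs k : ℝ) ^ (d + 1) / (bs k : ℝ) ^ n ≤ 1 := by
        rw [div_le_one hpos]
        exact pow_le_pow_right₀ (by linarith) (by omega)
      linarith
  rw [hfl, pow_succ, ← mul_assoc]
  exact Int.mul_emod_left _ _

/-- The digit `0` does not have frequency `1/r` in the base `r` expansion of `yy`. -/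
theorem yy_zero_freq (r : ℕ) (hr : 2 ≤ r) :
    ¬ Tendsto (fun N : ℕ =>
      (((Finset.range N).filter
        (fun n : ℕ => ⌊(r : ℝ) ^ (n + 1) * yy⌋ % (r : ℤ) = 0)).card : ℝ) / (N : ℝ))
      atTop (𝓝 (1 / (r : ℝ))) := by
  intro h1
  set cnt : ℕ → ℕ := fun N => ((Finset.range N).filter
        (fun n : ℕ => ⌊(r : ℝ) ^ (n + 1) * yy⌋ % (r : ℤ) = 0)).card with hcnt
  have h1' : Tendsto (fun N : ℕ => (cnt N : ℝ) / N) atTop (𝓝 (1 / (r : ℝ))) := h1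
  -- the good stages
  set kk : ℕ → ℕ := fun c => Nat.pair (r - 2) c with hkk
  have hbs : ∀ c, bs (kk c) = r := by
    intro c
    simp only [hkk, bs, Nat.unpair_pair]
    omega
  set nn : ℕ → ℕ := fun c => Nat.clog r (QQ (kk c) ^ 8) with hnn
  have hQn : ∀ c, QQ (kk c + 1) = r ^ nn c := by
    intro c
    rw [QQ_succ, hbs]
  have hnn_top : Tendsto nn atTop atTop := by
    rw [tendsto_atTop]
    intro B
    filter_upwards [eventually_ge_atTop (r ^ B)] with c hc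
    by_contra hcon
    push Not at hcon
    have h2 : r ^ nn c ≤ r ^ B := Nat.pow_le_pow_right (by omega) hcon.le
    have h3 := QQ_ge (kk c + 1)
    have h4 : c ≤ kk c := Nat.right_le_pair _ _
    rw [hQn c] at h3
    omega
  have hnn_pos : ∀ c, 0 < nn c := by
    intro c
    rcases Nat.eq_zero_or_pos (nn c) with h | h
    · have h2 := QQ_two (kk c + 1)
      rw [hQn c, h] at h2
      simp at h2
    · exact h
  have hdouble : ∀ c, cnt (2 * nn c) = cnt (nn c) + nn c := by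
    intro c
    simp only [hcnt]
    have hsplit : (Finset.range (2 * nn c)).filter
        (fun n : ℕ => ⌊(r : ℝ) ^ (n + 1) * yy⌋ % (r : ℤ) = 0)
        = ((Finset.range (nn c)).filter
        (fun n : ℕ => ⌊(r : ℝ) ^ (n + 1) * yy⌋ % (r : ℤ) = 0)) ∪ Finset.Ico (nn c) (2 * nn c) := by
      ext i
      simp only [mem_filter, mem_range, mem_union, mem_Ico]
      constructor
      · rintro ⟨h2, h3⟩
        rcases Nat.lt_or_ge i (nn c) with h | h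
        · left; exact ⟨h, h3⟩
        · right; exact ⟨h, h2⟩
      · rintro (⟨h2, h3⟩ | ⟨h2, h3⟩)
        · exact ⟨by omega, h3⟩
        · refine ⟨h3, ?_⟩
          have h4 := digit_zero (kk c) (nn c) (by rw [hbs]; exact hQn c) i h2 h3
          rw [hbs] at h4
          exact h4
    rw [hsplit, Finset.card_union_of_disjoint, Nat.card_Ico]
    · omega
    · rw [Finset.disjoint_left]
      intro i hi hi'
      simp only [mem_filter, mem_range, mem_Ico] at hi hi'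
      omega
  have h5 : Tendsto (fun c => (cnt (nn c) : ℝ) / nn c) atTop (𝓝 (1 / (r : ℝ))) :=
    h1'.comp hnn_top
  have h6 : Tendsto (fun c => 2 * nn c) atTop atTop :=
    tendsto_atTop_mono (fun c => by omega) hnn_top
  have h7 : Tendsto (fun c => (cnt (2 * nn c) : ℝ) / ((2 * nn c : ℕ) : ℝ)) atTop
      (𝓝 (1 / (r : ℝ))) := h1'.comp h6
  have h8 : ∀ c, (cnt (2 * nn c) : ℝ) / ((2 * nn c : ℕ) : ℝ)
      = ((cnt (nn c) : ℝ) / nn c) / 2 + 1 / 2 := by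
    intro c
    rw [hdouble c]
    have : (0:ℝ) < nn c := by exact_mod_cast hnn_pos c
    push_cast
    field_simp
  simp only [h8] at h7
  have h9 : Tendsto (fun c => ((cnt (nn c) : ℝ) / nn c) / 2 + 1 / 2) atTop
      (𝓝 ((1 / (r : ℝ)) / 2 + 1 / 2)) := (h5.div_const 2).add_const _
  have h10 := tendsto_nhds_unique h7 h9
  have hr' : (2:ℝ) ≤ r := by exact_mod_cast hr
  have h11 : 1 / (r:ℝ) = 1 := by linarith
  rw [div_eq_one_iff_eq (by positivity)] at h11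
  linarith

theorem yy_not_normal (r : ℕ) (hr : 2 ≤ r) : ¬ IsNormalBase r yy := by
  intro hnorm
  have h1 := hnorm 1 le_rfl 0 le_rfl (by positivity)
  simp only [pow_one] at h1
  exact yy_zero_freq r hr h1

/-- There is a real number normal in every base, such that the digit `0` does not have the right
frequency in its reciprocal, in any base. -/
theorem exists_strong :
    ∃ x : ℝ, ∀ r : ℕ, 2 ≤ r → IsNormalBase r x ∧
      ¬ Tendsto (fun N : ℕ =>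
        (((Finset.range N).filter
          (fun n : ℕ => ⌊(r : ℝ) ^ (n + 1) * x⁻¹⌋ % (r : ℤ) = 0)).card : ℝ) / (N : ℝ))
        atTop (𝓝 (1 / (r : ℝ))) := by
  refine ⟨xx, fun r hr => ⟨xx_normal r hr, ?_⟩⟩
  have : xx⁻¹ = yy := inv_inv yy
  rw [this]
  exact yy_zero_freq r hr

/-- There is a real number normal in every base whose reciprocal is normal in no base. -/
theorem exists_abs_normal_inv_not_normal :
    ∃ x : ℝ, ∀ r : ℕ, 2 ≤ r → IsNormalBase r x ∧ ¬ IsNormalBase r x⁻¹ := by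
  refine ⟨xx, fun r hr => ⟨xx_normal r hr, ?_⟩⟩
  have : xx⁻¹ = yy := inv_inv yy
  rw [this]
  exact yy_not_normal r hr

end Pool.Agent.H.MP_38ccf3_nt
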