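import Pool.Agent.H.MP_38ccf3_nt.Avg

set_option autoImplicit false

namespace Pool.Agent.H.MP_38ccf3_nt

open Finset

/-- From a bound for the sum of squares to a bound for each term. -/
lemma sup_of_sum_sq (W : ℕ → ℂ) (j0 : ℕ) (hW0 : W j0 = 0) (hW : ∀ m, ‖W (m + 1) - W m‖ ≤ 1)
    (M : ℕ) (hM : j0 ≤ M) : ‖W M‖ ^ 3 ≤ 8 * ∑ m ∈ Icc j0 M, ‖W m‖ ^ 2 := by
  have hdiff : ∀ s, ‖W (M - s)‖ ≥ ‖W M‖ - s := by
    intro s
    induction s with
    | zero => simp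
    | succ s ih =>
      rcases Nat.lt_or_ge s M with h | h
      · have h1 := hW (M - (s + 1))
        have h2 : M - (s + 1) + 1 = M - s := by omega
        rw [h2] at h1
        have h3 : ‖W (M - s)‖ ≤ ‖W (M - (s + 1))‖ + ‖W (M - s) - W (M - (s + 1))‖ := by
          have := norm_add_le (W (M - (s + 1))) (W (M - s) - W (M - (s + 1)))
          simpa using this
        push_cast
        linarith
      · have h2 : M - (s + 1) = M - s := by omega
        rw [h2]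
        push_cast
        linarith
  have hle : ‖W M‖ ≤ (M : ℝ) - j0 := by
    have h1 := hdiff (M - j0)
    have h2 : M - (M - j0) = j0 := by omega
    rw [h2, hW0, norm_zero, Nat.cast_sub hM] at h1
    linarith
  set w := ‖W M‖ with hw
  have hw0 : 0 ≤ w := norm_nonneg _
  set t := ⌊w / 2⌋₊ with ht
  have ht1 : (t : ℝ) ≤ w / 2 := Nat.floor_le (by positivity)
  have ht2 : w / 2 < t + 1 := Nat.lt_floor_add_one _
  have htM : (t : ℝ) ≤ (M : ℝ) - j0 := by linarith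
  have htM' : t + j0 ≤ M := by
    have : (t : ℝ) + j0 ≤ M := by linarith
    exact_mod_cast this
  have h1 : ∑ s ∈ range (t + 1), ‖W (M - s)‖ ^ 2 ≤ ∑ m ∈ Icc j0 M, ‖W m‖ ^ 2 := by
    have hinj : Set.InjOn (fun s => M - s) (range (t + 1) : Set ℕ) := by
      intro s hs s' hs' h
      simp only [coe_range, Set.mem_Iio] at hs hs'
      simp only at h
      omega
    rw [← Finset.sum_image (f := fun m => ‖W m‖ ^ 2) hinj]
    apply Finset.sum_le_sum_of_subset_of_nonneg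
    · intro m hm
      simp only [mem_image, mem_range, mem_Icc] at hm ⊢
      obtain ⟨s, hs, rfl⟩ := hm
      omega
    · intro i _ _
      positivity
  have h2 : ∑ s ∈ range (t + 1), (w / 2) ^ 2 ≤ ∑ s ∈ range (t + 1), ‖W (M - s)‖ ^ 2 := by
    apply Finset.sum_le_sum
    intro s hs
    have hs' : (s : ℝ) ≤ t := by
      have := Finset.mem_range.mp hs
      have : s ≤ t := by omega
      exact_mod_cast this
    have := hdiff s
    gcongr
    linarith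
  rw [Finset.sum_const, card_range, nsmul_eq_mul] at h2
  push_cast at h2
  have h3 : (w / 2) * (w / 2) ^ 2 ≤ ((t : ℝ) + 1) * (w / 2) ^ 2 := by
    gcongr
  nlinarith

lemma sum_inv_pow (b : ℕ) (hb : 2 ≤ b) (j0 M : ℕ) (hM : j0 ≤ M) :
    ∑ j ∈ Ico j0 M, (1 / (b : ℝ) ^ j) ≤ 2 / (b : ℝ) ^ j0 := by
  have hb' : (2:ℝ) ≤ b := by exact_mod_cast hb
  have key : ∑ j ∈ Ico j0 M, (1 / (b : ℝ) ^ j) ≤ 2 / (b : ℝ) ^ j0 - 2 / (b : ℝ) ^ M := by
    induction M, hM using Nat.le_induction with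
    | base => simp
    | succ M hM ih =>
      rw [Finset.sum_Ico_succ_top hM]
      have h1 : 2 / (b : ℝ) ^ (M + 1) ≤ 1 / (b : ℝ) ^ M := by
        rw [div_le_div_iff₀ (by positivity) (by positivity), pow_succ]
        nlinarith [pow_pos (show (0:ℝ) < b by linarith) M]
      have h2 : 2 / (b : ℝ) ^ M = 1 / (b : ℝ) ^ M + 1 / (b : ℝ) ^ M := by ring
      linarith
  have : 0 ≤ 2 / (b : ℝ) ^ M := by positivity
  linarith

lemma sum_pow_le (q : ℝ) (hq : 1.4 ≤ q) (m : ℕ) : ∑ j ∈ range (m + 1), q ^ j ≤ 3.5 * q ^ m := by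
  induction m with
  | zero => simp; norm_num
  | succ m ih =>
    rw [Finset.sum_range_succ]
    have : 0 < q ^ m := by positivity
    rw [pow_succ]
    nlinarith

lemma clog_bound (b R : ℕ) (hb : 2 ≤ b) (hR : 2 ≤ R) (s : ℝ) (hs : 0 < s) (hsR : s ^ 4 = R) :
    (Nat.clog b (R ^ 2) : ℝ) ≤ 11.6 * s := by
  have hR2 : 1 < R ^ 2 := Nat.one_lt_pow (by norm_num) (by omega)
  have h1 : b ^ (Nat.clog b (R ^ 2) - 1) < R ^ 2 := Nat.pow_pred_clog_lt_self (by omega) hR2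
  have hs1 : 1 ≤ s := by
    by_contra h
    push Not at h
    have : s ^ 4 < 1 := pow_lt_one₀ hs.le h (by norm_num)
    have h2 : (2:ℝ) ≤ R := by exact_mod_cast hR
    linarith
  have hc : 0 < Nat.clog b (R ^ 2) := Nat.clog_pos (by omega) (by omega)
  set m := Nat.clog b (R ^ 2) - 1 with hm
  have hm' : (Nat.clog b (R ^ 2) : ℝ) = m + 1 := by
    have : Nat.clog b (R ^ 2) = m + 1 := by omega
    rw [this]; push_cast; ring
  have h2 : (2:ℝ) ^ m < s ^ 8 := by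
    have h3 : (2:ℕ) ^ m ≤ b ^ m := Nat.pow_le_pow_left hb m
    have h4 : (2:ℕ) ^ m < R ^ 2 := lt_of_le_of_lt h3 h1
    have h5 : ((2:ℕ):ℝ) ^ m < (R:ℝ) ^ 2 := by exact_mod_cast h4
    rw [← hsR] at h5
    push_cast at h5
    calc (2:ℝ) ^ m < (s ^ 4) ^ 2 := h5
      _ = s ^ 8 := by ring
  have h6 : (m : ℝ) * Real.log 2 < 8 * Real.log s := by
    have := Real.log_lt_log (by positivity) h2
    rw [Real.log_pow, Real.log_pow] at this
    exact_mod_cast this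
  have h7 : Real.log s ≤ s - 1 := Real.log_le_sub_one_of_pos hs
  have h8 := Real.log_two_gt_d9
  rw [hm']
  have h9 : (m : ℝ) * 0.69 ≤ (m : ℝ) * Real.log 2 := by
    apply mul_le_mul_of_nonneg_left _ (by positivity)
    linarith
  nlinarith

/-- the frequencies `h b^j` -/
noncomputable def aa (b h : ℕ) (j : ℕ) : ℝ := (h : ℝ) * (b : ℝ) ^ j

lemma aa_pos (b h : ℕ) (hb : 2 ≤ b) (hh : 1 ≤ h) (j : ℕ) : 0 < aa b h j := by
  unfold aa
  have : (0:ℝ) < b := by exact_mod_cast (by omega : 0 < b)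
  have : (0:ℝ) < h := by exact_mod_cast (by omega : 0 < h)
  positivity

lemma aa_half (b h : ℕ) (hb : 2 ≤ b) (hh : 1 ≤ h) (j k : ℕ) (hjk : j < k) :
    aa b h j ≤ aa b h k / 2 := by
  unfold aa
  have hb' : (2:ℝ) ≤ b := by exact_mod_cast hb
  obtain ⟨d, rfl⟩ : ∃ d, k = j + 1 + d := ⟨k - (j + 1), by omega⟩
  have h1 : (1:ℝ) ≤ (b:ℝ) ^ d := one_le_pow₀ (by linarith)
  have h2 : (0:ℝ) < (b:ℝ) ^ j := by positivity
  rw [pow_add, pow_succ]
  have h3 : (2:ℝ) ≤ b * (b:ℝ) ^ d := by nlinarith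
  have h4 : (0:ℝ) ≤ (h:ℝ) := by positivity
  calc (h:ℝ) * (b:ℝ) ^ j = (h:ℝ) * ((b:ℝ) ^ j * 2) / 2 := by ring
    _ ≤ (h:ℝ) * ((b:ℝ) ^ j * (b * (b:ℝ) ^ d)) / 2 := by gcongr
    _ = _ := by ring

theorem sum_BB (b h : ℕ) (hb : 2 ≤ b) (hh : 1 ≤ h) (Q R H : ℕ) (hQ : 1 ≤ Q) (hR : 2 ≤ R)
    (hQR : Q ^ 8 ≤ R) (hRH : R ≤ 2 * Q ^ 2 * H) (M : ℕ) (hM0 : Nat.clog b (Q ^ 2) ≤ M)
    (hM : M ≤ Nat.clog b (R ^ 2)) :
    ∑ j ∈ Ico (Nat.clog b (Q ^ 2)) M, BB (aa b h) R H j ≤ 1300 * h * H := by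
  have hb' : (2:ℝ) ≤ b := by exact_mod_cast hb
  have hh' : (1:ℝ) ≤ h := by exact_mod_cast hh
  have hQ' : (1:ℝ) ≤ Q := by exact_mod_cast hQ
  have hR' : (2:ℝ) ≤ R := by exact_mod_cast hR
  have hRH' : (R:ℝ) ≤ 2 * Q ^ 2 * H := by exact_mod_cast hRH
  have hQR' : (Q:ℝ) ^ 8 ≤ R := by exact_mod_cast hQR
  have hH0 : (0:ℝ) ≤ H := by positivity
  set j0 := Nat.clog b (Q ^ 2) with hj0
  set j1 := Nat.clog b (R ^ 2) with hj1
  have hbj0 : (Q:ℝ) ^ 2 ≤ (b:ℝ) ^ j0 := by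
    have : Q ^ 2 ≤ b ^ j0 := Nat.le_pow_clog (by omega) _
    exact_mod_cast this
  -- first sum
  have s1 : ∑ j ∈ Ico j0 M, (32 * R / aa b h j) ≤ 128 * H := by
    have e1 : ∀ j ∈ Ico j0 M, (32 * (R:ℝ) / aa b h j) = (32 * R / h) * (1 / (b:ℝ) ^ j) := by
      intro j _
      unfold aa
      field_simp
    rw [Finset.sum_congr rfl e1, ← Finset.mul_sum]
    have h1 := sum_inv_pow b hb j0 M hM0
    have h2 : 2 / (b:ℝ) ^ j0 ≤ 2 / (Q:ℝ) ^ 2 := by
      apply div_le_div_of_nonneg_left (by norm_num) (by positivity) hbj0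
    have h3 : 32 * (R:ℝ) / h ≤ 32 * R := by
      rw [div_le_iff₀ (by positivity)]
      nlinarith
    calc (32 * (R:ℝ) / h) * ∑ j ∈ Ico j0 M, (1 / (b:ℝ) ^ j)
        ≤ (32 * R) * (2 / (Q:ℝ) ^ 2) := by
          gcongr
          exact h1.trans h2
      _ = 64 * R / Q ^ 2 := by ring
      _ ≤ 128 * H := by
          rw [div_le_iff₀ (by positivity)]
          nlinarith
  -- second sum
  have s2 : ∑ j ∈ Ico j0 M, (118 * (Real.sqrt (aa b h j) / R) * H) ≤ 413 * h * H := by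
    have e1 : ∀ j, (118 * (Real.sqrt (aa b h j) / R) * (H:ℝ))
        = (118 * H * Real.sqrt h / R) * (Real.sqrt b) ^ j := by
      intro j
      unfold aa
      rw [Real.sqrt_mul (by positivity)]
      have : Real.sqrt ((b:ℝ) ^ j) = (Real.sqrt b) ^ j := by
        rw [Real.sqrt_eq_iff_mul_self_eq (by positivity) (by positivity), ← mul_pow,
          Real.mul_self_sqrt (by positivity)]
      rw [this]
      ring
    have hq : 1.4 ≤ Real.sqrt b := by
      rw [Real.le_sqrt (by norm_num) (by positivity)]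
      norm_num
      linarith
    have hR2 : 1 < R ^ 2 := Nat.one_lt_pow (by norm_num) (by omega)
    have h1 : b ^ (j1 - 1) < R ^ 2 := Nat.pow_pred_clog_lt_self (by omega) hR2
    have hc : 0 < j1 := Nat.clog_pos (by omega) (by omega)
    have hsub : ∑ j ∈ Ico j0 M, (Real.sqrt b) ^ j ≤ ∑ j ∈ range ((j1 - 1) + 1), (Real.sqrt b) ^ j := by
      apply Finset.sum_le_sum_of_subset_of_nonneg
      · intro j hj
        simp only [mem_Ico, mem_range] at hj ⊢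
        omega
      · intro i _ _
        positivity
    have h2 := sum_pow_le (Real.sqrt b) hq (j1 - 1)
    have h3 : (Real.sqrt b) ^ (j1 - 1) ≤ R := by
      have h4 : ((b:ℝ)) ^ (j1 - 1) ≤ (R:ℝ) ^ 2 := by exact_mod_cast h1.le
      have h5 : ((Real.sqrt b) ^ (j1 - 1)) ^ 2 = (b:ℝ) ^ (j1 - 1) := by
        rw [← pow_mul, mul_comm, pow_mul, Real.sq_sqrt (by positivity)]
      rw [← h5] at h4
      exact (pow_le_pow_iff_left₀ (by positivity) (by positivity) (by norm_num)).mp h4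
    rw [Finset.sum_congr rfl (fun j _ => e1 j), ← Finset.mul_sum]
    have hsh : Real.sqrt h ≤ h := by
      rw [Real.sqrt_le_left (by positivity)]
      nlinarith
    calc (118 * H * Real.sqrt h / R) * ∑ j ∈ Ico j0 M, (Real.sqrt b) ^ j
        ≤ (118 * H * Real.sqrt h / R) * (3.5 * R) := by
          gcongr
          linarith
      _ = 413 * Real.sqrt h * H := by field_simp; ring
      _ ≤ 413 * h * H := by gcongr
  -- third sum
  have s3 : ∑ j ∈ Ico j0 M, (30 * Real.sqrt R) ≤ 696 * H := by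
    rw [Finset.sum_const, Nat.card_Ico, nsmul_eq_mul]
    set s := Real.sqrt (Real.sqrt R) with hs
    have hs2 : s ^ 2 = Real.sqrt R := Real.sq_sqrt (Real.sqrt_nonneg _)
    have hs4 : s ^ 4 = R := by
      have : s ^ 4 = (s ^ 2) ^ 2 := by ring
      rw [this, hs2, Real.sq_sqrt (by positivity)]
    have hs0 : 0 < s := by
      rw [hs]
      apply Real.sqrt_pos.mpr
      apply Real.sqrt_pos.mpr
      linarith
    have hcl := clog_bound b R hb hR s hs0 hs4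
    have h1 : ((M - j0 : ℕ) : ℝ) ≤ 11.6 * s := by
      have : M - j0 ≤ j1 := by omega
      have : ((M - j0 : ℕ) : ℝ) ≤ j1 := by exact_mod_cast this
      linarith
    have hQs : (Q:ℝ) ^ 2 ≤ s := by
      have : ((Q:ℝ) ^ 2) ^ 4 ≤ s ^ 4 := by
        rw [hs4]
        calc ((Q:ℝ) ^ 2) ^ 4 = (Q:ℝ) ^ 8 := by ring
          _ ≤ (R:ℝ) := hQR'
      exact (pow_le_pow_iff_left₀ (by positivity) hs0.le (by norm_num)).mp this
    have h2 : s ^ 3 ≤ 2 * H := by
      have h3 : s ^ 4 ≤ 2 * s * H := by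
        rw [hs4]
        refine hRH'.trans ?_
        gcongr
      have h4 : s * s ^ 3 ≤ s * (2 * H) := by
        calc s * s ^ 3 = s ^ 4 := by ring
          _ ≤ 2 * s * H := h3
          _ = s * (2 * H) := by ring
      exact le_of_mul_le_mul_left h4 hs0
    rw [← hs2]
    calc ((M - j0 : ℕ) : ℝ) * (30 * s ^ 2) ≤ (11.6 * s) * (30 * s ^ 2) := by gcongr
      _ = 348 * s ^ 3 := by ring
      _ ≤ 348 * (2 * H) := by gcongr
      _ = 696 * H := by ring
  unfold BB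
  rw [Finset.sum_add_distrib, Finset.sum_add_distrib]
  have h5 : (H:ℝ) ≤ h * H := by nlinarith
  nlinarith

/-- One stage of the construction. -/
theorem stage (w : ℕ × ℕ → ℝ) (hw : ∀ x, 0 < w x) (hsum : ∀ F : Finset (ℕ × ℕ), ∑ x ∈ F, w x ≤ 1)
    (F : Finset (ℕ × ℕ)) (hF : ∀ x ∈ F, 2 ≤ x.1 ∧ 1 ≤ x.2) (Q R P H : ℕ) (hQ : 1 ≤ Q) (hR : 2 ≤ R)
    (hQR : Q ^ 8 ≤ R) (hRH : R ≤ 2 * Q ^ 2 * H) (hRP : R ≤ P) (hPH : P + H ≤ 2 * R) :
    ∃ i < H, ∀ x ∈ F, ∀ M, Nat.clog x.1 (Q ^ 2) ≤ M → M ≤ Nat.clog x.1 (R ^ 2) →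
      ‖∑ j ∈ Ico (Nat.clog x.1 (Q ^ 2)) M, ee (aa x.1 x.2 j * R / ((P : ℝ) + i))‖ ^ 3
        ≤ (8 * 2601 * x.2 / w x) * ((Nat.clog x.1 (R ^ 2) : ℝ) + 1) ^ 2 := by
  have hH0 : 0 < H := by
    rcases Nat.eq_zero_or_pos H with h | h
    · subst h; omega
    · exact h
  set W : ℕ × ℕ → ℕ → ℕ → ℂ := fun x i m =>
    ∑ j ∈ Ico (Nat.clog x.1 (Q ^ 2)) m, ee (aa x.1 x.2 j * R / ((P : ℝ) + i)) with hW
  set G : ℕ × ℕ → ℕ → ℝ := fun x i =>
    ∑ m ∈ Icc (Nat.clog x.1 (Q ^ 2)) (Nat.clog x.1 (R ^ 2)), ‖W x i m‖ ^ 2 with hG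
  set J : ℕ × ℕ → ℝ := fun x => (Nat.clog x.1 (R ^ 2) : ℝ) + 1 with hJ
  have hJ0 : ∀ x, 0 < J x := fun x => by simp only [hJ]; positivity
  have hcmp : ∀ x ∈ F, Nat.clog x.1 (Q ^ 2) ≤ Nat.clog x.1 (R ^ 2) := by
    intro x hx
    apply Nat.clog_mono_right
    apply Nat.pow_le_pow_left
    calc Q = Q ^ 1 := (pow_one Q).symm
      _ ≤ Q ^ 8 := Nat.pow_le_pow_right (by omega) (by norm_num)
      _ ≤ R := hQR
  have hGsum : ∀ x ∈ F, ∑ i ∈ range H, G x i ≤ (2601 * x.2) * J x ^ 2 * H := by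
    intro x hx
    obtain ⟨hb, hh⟩ := hF x hx
    have hh' : (1:ℝ) ≤ x.2 := by exact_mod_cast hh
    simp only [hG]
    rw [Finset.sum_comm]
    have h1 : ∀ m ∈ Icc (Nat.clog x.1 (Q ^ 2)) (Nat.clog x.1 (R ^ 2)),
        ∑ i ∈ range H, ‖W x i m‖ ^ 2 ≤ J x * (2601 * x.2 * H) := by
      intro m hm
      obtain ⟨hm0, hm1⟩ := Finset.mem_Icc.mp hm
      have h2 := second_moment (aa x.1 x.2) (aa_pos x.1 x.2 hb hh) (aa_half x.1 x.2 hb hh)
        R P H (by omega) hRP hPH (Nat.clog x.1 (Q ^ 2)) m hm0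
      have h3 := sum_BB x.1 x.2 hb hh Q R H hQ hR hQR hRH m hm0 hm1
      refine h2.trans ?_
      have hm1' : (m:ℝ) ≤ Nat.clog x.1 (R ^ 2) := by exact_mod_cast hm1
      have hm0' : (Nat.clog x.1 (Q ^ 2) : ℝ) ≤ m := by exact_mod_cast hm0
      have hH1 : (0:ℝ) < H := by exact_mod_cast hH0
      have h4 : (m:ℝ) - Nat.clog x.1 (Q ^ 2) ≤ J x := by
        simp only [hJ]
        have : (0:ℝ) ≤ Nat.clog x.1 (Q ^ 2) := by positivity
        linarith
      have h5 : (H:ℝ) + 2 * ∑ j ∈ Ico (Nat.clog x.1 (Q ^ 2)) m, BB (aa x.1 x.2) R H j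
          ≤ 2601 * x.2 * H := by nlinarith
      have h6 : 0 ≤ ∑ j ∈ Ico (Nat.clog x.1 (Q ^ 2)) m, BB (aa x.1 x.2) R H j :=
        Finset.sum_nonneg (fun j _ => BB_nonneg _ (aa_pos x.1 x.2 hb hh) R H j)
      have h7 : (0:ℝ) ≤ (m:ℝ) - Nat.clog x.1 (Q ^ 2) := by linarith
      have h8 : 0 ≤ (H:ℝ) + 2 * ∑ j ∈ Ico (Nat.clog x.1 (Q ^ 2)) m, BB (aa x.1 x.2) R H j := by
        positivity
      exact mul_le_mul h4 h5 h8 (hJ0 x).le
    refine (Finset.sum_le_sum h1).trans ?_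
    rw [Finset.sum_const, Nat.card_Icc, nsmul_eq_mul]
    have h9 : ((Nat.clog x.1 (R ^ 2) + 1 - Nat.clog x.1 (Q ^ 2) : ℕ) : ℝ) ≤ J x := by
      simp only [hJ]
      have : Nat.clog x.1 (R ^ 2) + 1 - Nat.clog x.1 (Q ^ 2) ≤ Nat.clog x.1 (R ^ 2) + 1 :=
        Nat.sub_le _ _
      exact_mod_cast this
    have h10 : 0 ≤ J x * (2601 * x.2 * (H:ℝ)) := by
      have := hJ0 x
      positivity
    calc _ ≤ J x * (J x * (2601 * x.2 * (H:ℝ))) := by gcongr
      _ = _ := by ring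
  have havg : ∑ i ∈ range H, ∑ x ∈ F, w x * G x i / ((2601 * x.2) * J x ^ 2)
      ≤ ∑ i ∈ range H, (1:ℝ) := by
    rw [Finset.sum_comm]
    have h1 : ∀ x ∈ F, ∑ i ∈ range H, w x * G x i / ((2601 * x.2) * J x ^ 2) ≤ w x * H := by
      intro x hx
      obtain ⟨hb, hh⟩ := hF x hx
      have hh' : (0:ℝ) < x.2 := by exact_mod_cast (by omega : 0 < x.2)
      have hJx := hJ0 x
      have hden : (0:ℝ) < (2601 * x.2) * J x ^ 2 := by positivity
      rw [← Finset.sum_div, ← Finset.mul_sum, div_le_iff₀ hden]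
      have := hGsum x hx
      have hwx := hw x
      calc w x * ∑ i ∈ range H, G x i ≤ w x * ((2601 * x.2) * J x ^ 2 * H) := by gcongr
        _ = _ := by ring
    refine (Finset.sum_le_sum h1).trans ?_
    rw [← Finset.sum_mul, Finset.sum_const, card_range, nsmul_eq_mul, mul_one]
    have := hsum F
    have hH1 : (0:ℝ) ≤ H := by positivity
    nlinarith
  obtain ⟨i, hi, hi1⟩ := Finset.exists_le_of_sum_le (Finset.nonempty_range_iff.mpr hH0.ne') havg
  refine ⟨i, Finset.mem_range.mp hi, ?_⟩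
  intro x hx M hM0 hM1
  obtain ⟨hb, hh⟩ := hF x hx
  have hh' : (0:ℝ) < x.2 := by exact_mod_cast (by omega : 0 < x.2)
  have hJx := hJ0 x
  have hwx := hw x
  have hden : (0:ℝ) < (2601 * x.2) * J x ^ 2 := by positivity
  have hG0 : ∀ y, 0 ≤ G y i := fun y => Finset.sum_nonneg (fun m _ => by positivity)
  have h1 : w x * G x i / ((2601 * x.2) * J x ^ 2) ≤ 1 := by
    refine le_trans ?_ hi1
    apply Finset.single_le_sum (f := fun x => w x * G x i / ((2601 * x.2) * J x ^ 2)) _ hx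
    intro y _
    have := hw y
    have := hG0 y
    have := hJ0 y
    positivity
  have h2 : G x i ≤ (2601 * x.2) * J x ^ 2 / w x := by
    rw [le_div_iff₀ hwx]
    rw [div_le_one hden] at h1
    linarith
  have h3 := sup_of_sum_sq (W x i) (Nat.clog x.1 (Q ^ 2)) (by simp [hW]) ?_ M hM0
  · have h4 : ∑ m ∈ Icc (Nat.clog x.1 (Q ^ 2)) M, ‖W x i m‖ ^ 2 ≤ G x i := by
      apply Finset.sum_le_sum_of_subset_of_nonneg
      · intro m hm
        simp only [mem_Icc] at hm ⊢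
        omega
      · intro _ _ _
        positivity
    refine h3.trans ?_
    calc 8 * ∑ m ∈ Icc (Nat.clog x.1 (Q ^ 2)) M, ‖W x i m‖ ^ 2
        ≤ 8 * ((2601 * x.2) * J x ^ 2 / w x) := by linarith
      _ = (8 * 2601 * x.2 / w x) * J x ^ 2 := by ring
  · intro m
    rcases Nat.lt_or_ge m (Nat.clog x.1 (Q ^ 2)) with h | h
    · have e1 : W x i (m + 1) = 0 := by
        simp only [hW]
        rw [Finset.Ico_eq_empty (by omega), Finset.sum_empty]
      have e2 : W x i m = 0 := by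
        simp only [hW]
        rw [Finset.Ico_eq_empty (by omega), Finset.sum_empty]
      rw [e1, e2]
      simp
    · have e1 : W x i (m + 1) - W x i m = ee (aa x.1 x.2 m * R / ((P : ℝ) + i)) := by
        simp only [hW]
        rw [Finset.sum_Ico_succ_top h]
        ring
      rw [e1, norm_ee]

end Pool.Agent.H.MP_38ccf3_nt
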